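import Pool.Agent.Y199.DM.NfT
import Pool.Agent.Y199.DM.One

set_option autoImplicit false

/-! Properties of the members of a family which hold near to good parameters. -/

namespace Pool.Agent.K6.H53.DM

open Polynomial Pool.Agent.H936R2 Pool.Agent.Y199.DM Pool.Agent.Y152.BD

/-- The property `P` holds at the parameters near to `α`, at places at which finitely many numbers
are integral. -/
def HoldsNear (P : ℂ → Prop) (α : ℂ) : Prop :=
  ∃ s : Finset ℂ, ∀ (p : ℕ) [Fact p.Prime] (τ : ℂ →+* PadicAlgCl p), (∀ y ∈ s, ‖τ y‖ ≤ 1) →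
    ∀ t : ℂ, ‖τ (t - α)‖ < 1 → P t

/-- Parameters in a number field. -/
theorem finite_of_near (P : ℂ → Prop)
    (E : IntermediateField ℚ ℂ) [FiniteDimensional ℚ E] (m : ℕ) (hm : 1 ≤ m)
    (b : Fin 3 → Option ℂ) (hb : Function.Injective b) (halg : ∀ i, ∀ z ∈ b i, IsAlgebraic ℚ z) :
    {t : ℂ | t ∈ E ∧ (∀ i, Avoids m (b i) t ∨
      ∃ z ∈ b i, ∃ σ : ℂ ≃ₐ[E] ℂ, HoldsNear P (σ z)) ∧ ¬ P t}.Finite := by
  classical
  have h1 : ∀ i, ∃ (σ : ℂ ≃ₐ[E] ℂ) (s : Finset ℂ),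
      (∃ z ∈ b i, ∃ σ : ℂ ≃ₐ[E] ℂ, HoldsNear P (σ z)) →
      ∃ z ∈ b i, ∀ t, Near s (σ z) t → P t := by
    intro i
    by_cases h : ∃ z ∈ b i, ∃ σ : ℂ ≃ₐ[E] ℂ, HoldsNear P (σ z)
    · obtain ⟨z, hz, σ, s, hs⟩ := h
      refine ⟨σ, s, fun _ => ⟨z, hz, ?_⟩⟩
      rintro t ⟨p, hp, τ, hτ, hlt⟩
      exact hs p τ hτ t hlt
    · exact ⟨AlgEquiv.refl, ∅, fun h' => absurd h' h⟩
  choose σ s hs using h1
  refine (near_line E b hb halg s σ m hm).subset ?_
  rintro t ⟨htE, ht, hbad⟩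
  refine ⟨htE, fun i => ?_⟩
  rcases ht i with h | h
  · exact Or.inl h
  · obtain ⟨z, hz, hz'⟩ := hs i h
    exact Or.inr ⟨z, hz, fun hn => hbad (hz' t hn)⟩

/-- Rational parameters. -/
theorem sparse_of_near (P : ℂ → Prop) (α : ℂ) (hα : IsAlgebraic ℚ α) (h : HoldsNear P α) :
    ∃ C r : ℕ, ∀ B v : ℕ, 2 ≤ B → v ≤ B → ∀ T : Finset ℚ,
      (∀ t ∈ T, t.den = v ∧ |t.num| ≤ B ∧ ¬ P t) → (T.card : ℝ) ≤ C * Real.log B ^ r := by
  classical
  obtain ⟨Q, hQ0, hQα⟩ := (IsFractionRing.isAlgebraic_iff ℤ ℚ ℂ).mpr hα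
  obtain ⟨G, hG, -, hGα⟩ := DegLE.exists_irreducible (d := Q.natDegree) (τ := α)
    ⟨Q, hQ0, le_rfl, hQα⟩
  have hGdeg : G.natDegree ≠ 0 := by
    intro h0
    rw [Polynomial.eq_C_of_natDegree_eq_zero h0] at hGα hG
    rw [aeval_C] at hGα
    have h1 : G.coeff 0 = 0 := by
      have h2 : ((G.coeff 0 : ℤ) : ℂ) = 0 := hGα
      exact_mod_cast h2
    rw [h1, C_0] at hG
    exact not_irreducible_zero hG
  obtain ⟨s, hs⟩ := h
  obtain ⟨D, hD⟩ := emb_alg_near s α G hG hGα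
  obtain ⟨C, r, hC⟩ := card_exceptions_le G hGdeg (D + G.leadingCoeff.natAbs)
  refine ⟨C, r, fun B v hB hv T hT => hC B v hB hv T fun t ht => ?_⟩
  obtain ⟨hden, hnum, hbad⟩ := hT t ht
  have key : ∀ p : ℕ, p.Prime → D < p → ¬ p ∣ t.den → ¬ (p : ℤ) ∣ Nv G t := by
    intro p hp hlt hpden hdvd
    haveI : Fact p.Prime := ⟨hp⟩
    obtain ⟨τ, hτ, hτα⟩ := hD p hlt t hpden hdvd
    apply hbad
    refine hs p τ hτ t ?_
    rw [map_sub, map_ratCast, norm_sub_rev]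
    exact hτα
  refine ⟨hden, hnum, fun h0 => ?_, fun p hp hdvd => ?_⟩
  · obtain ⟨p, hpD, hp⟩ := Nat.exists_infinite_primes (D + t.den + 1)
    refine key p hp (by omega) (fun hdvd => ?_) (by rw [h0]; exact dvd_zero _)
    have := Nat.le_of_dvd t.den_pos hdvd
    omega
  · by_contra hlt
    push Not at hlt
    by_cases hpden : p ∣ t.den
    · have h1 : (p : ℤ) ∣ G.coeff G.natDegree * t.num ^ G.natDegree := by
        have h2 : Nv G t = (∑ i ∈ Finset.range G.natDegree,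
            G.coeff i * t.num ^ i * (t.den : ℤ) ^ (G.natDegree - i)) +
              G.coeff G.natDegree * t.num ^ G.natDegree := by
          rw [Nv, Finset.sum_range_succ, Nat.sub_self, pow_zero, mul_one]
        have h3 : (p : ℤ) ∣ ∑ i ∈ Finset.range G.natDegree,
            G.coeff i * t.num ^ i * (t.den : ℤ) ^ (G.natDegree - i) := by
          refine Finset.dvd_sum fun i hi => ?_
          rw [Finset.mem_range] at hi
          refine Dvd.dvd.mul_left ?_ _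
          exact dvd_pow (Int.natCast_dvd_natCast.2 hpden) (by omega)
        rw [h2] at hdvd
        exact (Int.dvd_add_right h3).1 hdvd
      have h4 : ¬ (p : ℤ) ∣ t.num := by
        intro h5
        have h6 := t.reduced
        have h7 : p ∣ t.num.natAbs := Int.natCast_dvd.1 h5
        have h8 := Nat.dvd_gcd h7 hpden
        rw [h6] at h8
        exact hp.one_lt.ne' (Nat.dvd_one.1 h8)
      have hpp : Prime (p : ℤ) := Nat.prime_iff_prime_int.1 hp
      have h5 : (p : ℤ) ∣ G.leadingCoeff := by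
        rcases hpp.dvd_or_dvd h1 with h6 | h6
        · exact h6
        · exact absurd (hpp.dvd_of_dvd_pow h6) h4
      have h6 := Nat.le_of_dvd (Int.natAbs_pos.2 (leadingCoeff_ne_zero.2 hG.ne_zero))
        (Int.natCast_dvd.1 h5)
      omega
    · exact key p hp (by omega) hpden hdvd

/-- Parameters outside an algebraically closed field. -/
theorem transc_of_near (K : Subfield ℂ) [IsAlgClosed K] (α : ℂ) (hα : α ∈ K)
    (s : Finset ℂ) (hs : (s : Set ℂ) ⊆ K) (t : ℂ) (ht : t ∉ K) :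
    ∃ (p : ℕ) (_ : Fact p.Prime) (τ : ℂ →+* PadicAlgCl p),
      (∀ y ∈ s, ‖τ y‖ ≤ 1) ∧ ‖τ (t - α)‖ < 1 := by
  have htr : Transcendental K (t - α) := by
    intro halg
    apply ht
    have h1 : IsIntegral K (t - α) := halg.isIntegral
    have h2 := IsAlgClosed.degree_eq_one_of_irreducible K (minpoly.irreducible h1)
    obtain ⟨y, hy⟩ := minpoly.mem_range_of_degree_eq_one K (t - α) h2
    have h3 : (t - α) ∈ K := by
      rw [← hy]
      exact y.2
    have h4 := K.add_mem h3 hα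
    rwa [sub_add_cancel] at h4
  obtain ⟨D, hD⟩ := emb_transc K s hs (t - α) htr 0
  obtain ⟨p, hpD, hp⟩ := Nat.exists_infinite_primes (D + 1)
  haveI : Fact p.Prime := ⟨hp⟩
  obtain ⟨τ, hτ, hlt⟩ := hD p (by omega)
  refine ⟨p, ⟨hp⟩, τ, hτ, ?_⟩
  rwa [Rat.cast_zero, sub_zero] at hlt

end Pool.Agent.K6.H53.DM
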