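import Mathlib
import Pool.Agent.H936R2.Crit2

set_option autoImplicit false

/-! Containments of closed sets over an algebraically closed field hold after reduction, if finitely
many numbers are integral (the file `R847/PC/Cert` over a general algebraically closed field). -/

namespace Pool.Agent.K6.H53.DM

open MvPolynomial Pool.Agent.H936R2

variable {K : Type} [Field K]

/-- The polynomial has coefficients in `R`. -/
def Int {ι : Type} (R : Subring K) (P : MvPolynomial ι K) : Prop :=
  ∃ Q : MvPolynomial ι R, map R.subtype Q = P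

lemma int_of_coeff {ι : Type} (R : Subring K) (P : MvPolynomial ι K) (h : ∀ κ, P.coeff κ ∈ R) :
    Int R P := by
  classical
  refine ⟨∑ κ ∈ P.support, monomial κ ⟨P.coeff κ, h κ⟩, ?_⟩
  rw [map_sum]
  conv_rhs => rw [P.as_sum]
  apply Finset.sum_congr rfl
  intro κ _
  rw [map_monomial]
  rfl

section

variable {ι : Type} {R : Subring K} {k : Type} [CommRing k] (ρ : R →+* k)

/-- The value at a point over `k` of a polynomial with coefficients in `R`. -/
noncomputable def ev (z : ι → k) (P : MvPolynomial ι K) : k := by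
  classical
  exact if h : Int R P then eval₂ ρ z h.choose else 0

lemma ev_map (z : ι → k) (Q : MvPolynomial ι R) : ev ρ z (map R.subtype Q) = eval₂ ρ z Q := by
  have h : Int R (map R.subtype Q) := ⟨Q, rfl⟩
  unfold ev
  rw [dif_pos h]
  congr 1
  apply map_injective R.subtype Subtype.val_injective
  exact h.choose_spec

end

/-- A set of polynomials has a finite subset with the same zeros. -/
lemma finite_sub {κ : Type} [Finite κ] (B : Set (MvPolynomial κ K)) :
    ∃ B' : Finset (MvPolynomial κ K), (B' : Set (MvPolynomial κ K)) ⊆ B ∧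
      ∀ z : κ → K, (∃ g ∈ B, eval z g ≠ 0) → ∃ g ∈ B', eval z g ≠ 0 := by
  classical
  have hfg : (Submodule.span (MvPolynomial κ K) B).FG := IsNoetherian.noetherian _
  rw [Submodule.fg_span_iff_fg_span_finset_subset] at hfg
  obtain ⟨B', hB', hspan⟩ := hfg
  refine ⟨B', hB', fun z hz => ?_⟩
  by_contra hno
  push Not at hno
  obtain ⟨g, hg, hgz⟩ := hz
  apply hgz
  have h1 : g ∈ Submodule.span (MvPolynomial κ K) (B' : Set (MvPolynomial κ K)) := by
    rw [← hspan]
    exact Submodule.subset_span hg
  have h2 : Submodule.span (MvPolynomial κ K) (B' : Set (MvPolynomial κ K)) ≤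
      (RingHom.ker (eval z : MvPolynomial κ K →+* K) : Ideal _) :=
    Submodule.span_le.2 fun g hg => hno g hg
  exact h2 h1

/-- The Nullstellensatz modulo almost all primes. -/
lemma cert [IsAlgClosed K] {ι : Type} [Finite ι] (I : Finset (MvPolynomial ι K)) (g : MvPolynomial ι K)
    (h : ∀ z : ι → K, (∀ P ∈ I, eval z P = 0) → eval z g = 0) :
    ∃ s : Finset K, ∀ (R : Subring K), (s : Set K) ⊆ R → (∀ P ∈ I, Int R P) → Int R g →
      ∀ (k : Type) [Field k] (ρ : R →+* k) (z : ι → k), (∀ P ∈ I, ev ρ z P = 0) → ev ρ z g = 0 := by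
  classical
  have h1 : g ∈ (Ideal.span (I : Set (MvPolynomial ι K))).radical := by
    rw [← MvPolynomial.vanishingIdeal_zeroLocus_eq_radical (K := K),
      MvPolynomial.mem_vanishingIdeal_iff]
    intro x hx
    rw [MvPolynomial.mem_zeroLocus_iff] at hx
    have h2 := h x fun P hP => by
      have := hx P (Ideal.subset_span hP)
      simpa using this
    simpa using h2
  obtain ⟨M, hM⟩ := h1
  obtain ⟨c, hc⟩ := (Submodule.mem_span_finset'.1 hM)
  refine ⟨Finset.univ.biUnion fun P : I => (c P).support.image fun κ => (c P).coeff κ,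
    fun R hR hI hg k _ ρ z hz => ?_⟩
  have hcR : ∀ P, Int R (c P) := by
    intro P
    apply int_of_coeff
    intro κ
    by_cases hκ : κ ∈ (c P).support
    · apply hR
      simp only [Finset.coe_biUnion, Set.mem_iUnion]
      exact ⟨P, by simp, by
        simp only [Finset.coe_image, Set.mem_image]
        exact ⟨κ, hκ, rfl⟩⟩
    · rw [notMem_support_iff.1 hκ]
      exact R.zero_mem
  obtain ⟨G, rfl⟩ := hg
  choose C hC using hcR
  have hI' : ∀ P : I, Int R P.1 := fun P => hI _ P.2
  choose J hJ using hI'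
  have heq : G ^ M = ∑ P : I, C P * J P := by
    apply map_injective R.subtype Subtype.val_injective
    rw [map_pow, ← hc, map_sum]
    refine Finset.sum_congr rfl fun P _ => ?_
    rw [map_mul, hC, hJ, smul_eq_mul]
  have h3 := congrArg (eval₂ ρ z) heq
  rw [eval₂_pow, eval₂_sum] at h3
  have h4 : ∑ P : I, eval₂ ρ z (C P * J P) = 0 := by
    apply Finset.sum_eq_zero
    intro P _
    rw [eval₂_mul]
    have h5 := hz P.1 P.2
    rw [← hJ P, ev_map] at h5
    rw [h5, mul_zero]
  rw [ev_map]
  by_contra hne
  exact pow_ne_zero M hne (h3.trans h4)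

/-- The Nullstellensatz modulo almost all primes, for finitely many polynomials. -/
lemma cert_finset [IsAlgClosed K] {ι : Type} [Finite ι] (I J : Finset (MvPolynomial ι K))
    (h : ∀ z : ι → K, (∀ P ∈ I, eval z P = 0) → ∀ g ∈ J, eval z g = 0) :
    ∃ s : Finset K, ∀ (R : Subring K), (s : Set K) ⊆ R → (∀ P ∈ I, Int R P) →
      (∀ g ∈ J, Int R g) → ∀ (k : Type) [Field k] (ρ : R →+* k) (z : ι → k),
        (∀ P ∈ I, ev ρ z P = 0) → ∀ g ∈ J, ev ρ z g = 0 := by
  classical
  have h1 : ∀ g : J, ∃ s : Finset K, ∀ (R : Subring K), (s : Set K) ⊆ R → (∀ P ∈ I, Int R P) →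
      Int R g.1 → ∀ (k : Type) [Field k] (ρ : R →+* k) (z : ι → k), (∀ P ∈ I, ev ρ z P = 0) →
        ev ρ z g.1 = 0 := fun g => cert I g.1 fun z hz => h z hz g.1 g.2
  choose s hs using h1
  refine ⟨Finset.univ.biUnion s, fun R hR hI hJ k _ ρ z hz g hg => ?_⟩
  refine hs ⟨g, hg⟩ R (fun x hx => hR ?_) hI (hJ g hg) k ρ z hz
  simp only [Finset.coe_biUnion, Set.mem_iUnion]
  exact ⟨⟨g, hg⟩, by simp, hx⟩

/-- The coefficients of finitely many polynomials. -/
lemma coeffs_finset {ι : Type} (I : Finset (MvPolynomial ι K)) :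
    ∃ s : Finset K, ∀ (R : Subring K), (s : Set K) ⊆ R → ∀ P ∈ I, Int R P := by
  classical
  refine ⟨I.biUnion fun P => P.support.image fun κ => P.coeff κ, fun R hR P hP => ?_⟩
  apply int_of_coeff
  intro κ
  by_cases hκ : κ ∈ P.support
  · apply hR
    simp only [Finset.coe_biUnion, Set.mem_iUnion]
    exact ⟨P, hP, by
      simp only [Finset.coe_image, Set.mem_image]
      exact ⟨κ, hκ, rfl⟩⟩
  · rw [notMem_support_iff.1 hκ]
    exact R.zero_mem

/-- The polynomials of the iterates. -/
noncomputable def itp {ι : Type} {O : Type} [CommRing O] (f : ι → MvPolynomial ι O) :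
    ℕ → ι → MvPolynomial ι O
  | 0 => fun i => X i
  | n + 1 => fun i => bind₁ (itp f n) (f i)

lemma eval_bind {ι κ : Type} {O : Type} [CommRing O] (z : κ → O) (h : ι → MvPolynomial κ O)
    (g : MvPolynomial ι O) : eval z (bind₁ h g) = eval (fun i => eval z (h i)) g := by
  have h1 : (eval z : MvPolynomial κ O →+* O).comp (bind₁ h : MvPolynomial ι O →ₐ[O]
      MvPolynomial κ O).toRingHom = eval (fun i => eval z (h i)) := by
    apply MvPolynomial.ringHom_ext
    · intro r
      simp
    · intro i
      simp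
  exact RingHom.congr_fun h1 g

lemma eval_itp {ι : Type} {O : Type} [CommRing O] (f : ι → MvPolynomial ι O) (n : ℕ) (z : ι → O)
    (i : ι) : eval z (itp f n i) = (pt f)^[n] z i := by
  induction n generalizing i with
  | zero => simp [itp]
  | succ n ih =>
    rw [Function.iterate_succ_apply']
    change eval z (bind₁ (itp f n) (f i)) = eval ((pt f)^[n] z) (f i)
    rw [eval_bind]
    congr 2
    funext j
    exact ih j

lemma map_itp {ι : Type} {O O' : Type} [CommRing O] [CommRing O'] (φ : O →+* O')
    (f : ι → MvPolynomial ι O) (n : ℕ) (i : ι) :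
    map φ (itp f n i) = itp (fun i => map φ (f i)) n i := by
  induction n generalizing i with
  | zero => simp [itp]
  | succ n ih =>
    change map φ (bind₁ (itp f n) (f i)) = bind₁ (itp _ n) (map φ (f i))
    rw [map_bind₁]
    congr 2
    funext j
    exact ih j

/-- The polynomial `g ∘ f^m`. -/
noncomputable def pull {ι : Type} {O : Type} [CommRing O] (f : ι → MvPolynomial ι O) (m : ℕ)
    (g : MvPolynomial ι O) : MvPolynomial ι O := bind₁ (itp f m) g

lemma eval_pull {ι : Type} {O : Type} [CommRing O] (f : ι → MvPolynomial ι O) (m : ℕ)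
    (g : MvPolynomial ι O) (z : ι → O) : eval z (pull f m g) = eval ((pt f)^[m] z) g := by
  unfold pull
  rw [eval_bind]
  congr 2
  funext i
  exact eval_itp f m z i

section

variable {ι : Type} [Fintype ι] [DecidableEq ι]

/-- The Jacobian determinant as a polynomial. -/
noncomputable def jdet {O : Type} [CommRing O] (f : ι → MvPolynomial ι O) : MvPolynomial ι O :=
  (Matrix.of fun i j => pderiv j (f i)).det

lemma eval_jdet {O : Type} [CommRing O] (f : ι → MvPolynomial ι O) (z : ι → O) :
    eval z (jdet f) = (jac f z).det := by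
  unfold jdet
  rw [RingHom.map_det]
  rfl

lemma map_jdet {O O' : Type} [CommRing O] [CommRing O'] (φ : O →+* O') (f : ι → MvPolynomial ι O) :
    map φ (jdet f) = jdet (fun i => map φ (f i)) := by
  unfold jdet
  rw [RingHom.map_det]
  congr 1
  ext i j
  simp only [RingHom.mapMatrix_apply, Matrix.map_apply, Matrix.of_apply, pderiv_map]

variable {R : Subring K} {k : Type} [CommRing k] (ρ : R →+* k)

/-- If `fR` lifts `f` then `ρ (fR)` is the reduction of `f`. -/
lemma ev_pull (fR : ι → MvPolynomial ι R) (f : ι → MvPolynomial ι K)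
    (hf : ∀ i, map R.subtype (fR i) = f i) (m : ℕ) (g : MvPolynomial ι K) (hg : Int R g)
    (z : ι → k) : ev ρ z (pull f m g) = ev ρ ((pt fun i => map ρ (fR i))^[m] z) g := by
  obtain ⟨G, rfl⟩ := hg
  have hf' : f = fun i => map R.subtype (fR i) := funext fun i => (hf i).symm
  have h1 : pull f m (map R.subtype G) = map R.subtype (pull fR m G) := by
    unfold pull
    rw [map_bind₁, hf']
    congr 2
    funext i
    exact (map_itp R.subtype fR m i).symm
  rw [h1, ev_map, ev_map, eval₂_eq_eval_map, eval₂_eq_eval_map, ← eval_pull]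
  congr 1
  unfold pull
  rw [map_bind₁]
  congr 2
  funext i
  exact map_itp ρ fR m i

lemma int_pull (fR : ι → MvPolynomial ι R) (f : ι → MvPolynomial ι K)
    (hf : ∀ i, map R.subtype (fR i) = f i) (m : ℕ) (g : MvPolynomial ι K) (hg : Int R g) :
    Int R (pull f m g) := by
  obtain ⟨G, rfl⟩ := hg
  have hf' : f = fun i => map R.subtype (fR i) := funext fun i => (hf i).symm
  refine ⟨pull fR m G, ?_⟩
  unfold pull
  rw [map_bind₁, hf']
  congr 2
  funext i
  exact map_itp R.subtype fR m i

lemma ev_jdet (fR : ι → MvPolynomial ι R) (f : ι → MvPolynomial ι K)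
    (hf : ∀ i, map R.subtype (fR i) = f i) (z : ι → k) :
    ev ρ z (jdet f) = (jac (fun i => map ρ (fR i)) z).det := by
  have hf' : f = fun i => map R.subtype (fR i) := funext fun i => (hf i).symm
  have h1 : jdet f = map R.subtype (jdet fR) := by
    rw [map_jdet, hf']
  rw [h1, ev_map, eval₂_eq_eval_map, map_jdet, eval_jdet]

lemma int_jdet (fR : ι → MvPolynomial ι R) (f : ι → MvPolynomial ι K)
    (hf : ∀ i, map R.subtype (fR i) = f i) : Int R (jdet f) := by
  have hf' : f = fun i => map R.subtype (fR i) := funext fun i => (hf i).symm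
  exact ⟨jdet fR, by rw [map_jdet, hf']⟩

end

end Pool.Agent.K6.H53.DM
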