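import Pool.Agent.K6.H53.DM.Defs

set_option autoImplicit false

/-! Countable algebraically closed fields of definition. -/

namespace Pool.Agent.K6.H53.DML

open MvPolynomial Cardinal

variable {N : ℕ}

/-- A countable set of complex numbers is contained in a countable algebraically closed field. -/
theorem exists_countable_field (S : Set ℂ) (hS : S.Countable) :
    ∃ (K : Subfield ℂ) (_ : IsAlgClosed K), S ⊆ K ∧ (K : Set ℂ).Countable := by
  let F : Subfield ℂ := Subfield.closure S
  let A : IntermediateField F ℂ := algebraicClosure F ℂ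
  have hA : IsAlgClosure F A := algebraicClosure.isAlgClosure F ℂ
  have hF : #F ≤ ℵ₀ := by
    refine (Subfield.cardinalMk_closure_le_max S).trans ?_
    exact max_le (le_aleph0_iff_set_countable.2 hS) le_rfl
  have hAalg : Algebra.IsAlgebraic F A := hA.isAlgebraic
  have hcard : #A ≤ ℵ₀ := by
    refine (Algebra.IsAlgebraic.cardinalMk_le_max F A).trans ?_
    exact max_le hF le_rfl
  refine ⟨A.toSubfield, hA.isAlgClosed, fun x hx => ?_, ?_⟩
  · have h1 : x ∈ F := Subfield.subset_closure hx
    exact A.algebraMap_mem ⟨x, h1⟩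
  · exact le_aleph0_iff_set_countable.1 hcard

/-- The coefficients of a family form a countable set. -/
theorem countable_coeffs (F : Fin (N + 1) → MvPolynomial (Fin (N + 1)) (Polynomial ℂ)) :
    {c : ℂ | ∃ i κ k, c = ((F i).coeff κ).coeff k}.Countable := by
  have h : {c : ℂ | ∃ i κ k, c = ((F i).coeff κ).coeff k} =
      Set.range fun q : Fin (N + 1) × (Fin (N + 1) →₀ ℕ) × ℕ => ((F q.1).coeff q.2.1).coeff q.2.2 := by
    ext c
    constructor
    · rintro ⟨i, κ, k, rfl⟩
      exact ⟨(i, κ, k), rfl⟩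
    · rintro ⟨⟨i, κ, k⟩, rfl⟩
      exact ⟨i, κ, k, rfl⟩
  rw [h]
  exact Set.countable_range _

theorem countable_coeffs' (x : Fin (N + 1) → Polynomial ℂ) :
    {c : ℂ | ∃ i k, c = (x i).coeff k}.Countable := by
  have h : {c : ℂ | ∃ i k, c = (x i).coeff k} =
      Set.range fun q : Fin (N + 1) × ℕ => (x q.1).coeff q.2 := by
    ext c
    constructor
    · rintro ⟨i, k, rfl⟩
      exact ⟨(i, k), rfl⟩
    · rintro ⟨⟨i, k⟩, rfl⟩
      exact ⟨i, k, rfl⟩
  rw [h]
  exact Set.countable_range _

theorem countable_full {d : ℕ} (hd : 1 ≤ d)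
    (F : Fin (N + 1) → MvPolynomial (Fin (N + 1)) (Polynomial ℂ))
    (hF : ∀ i, (F i).IsHomogeneous d) (α : ℂ) (h : CriticallyFinite (member F α)) :
    {t : ℂ | ¬ FullDML (member F t)}.Countable := by
  obtain ⟨K, hK, hSK, hKc⟩ := exists_countable_field
    ({c : ℂ | ∃ i κ k, c = ((F i).coeff κ).coeff k} ∪ {α})
    ((countable_coeffs F).union (Set.countable_singleton α))
  refine hKc.mono fun t ht => ?_
  by_contra htK
  exact ht (transc_full K hd F hF (fun i κ k => hSK (Or.inl ⟨i, κ, k, rfl⟩)) α
    (hSK (Or.inr rfl)) h t htK)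

theorem countable_at {d : ℕ} (hd : 1 ≤ d)
    (F : Fin (N + 1) → MvPolynomial (Fin (N + 1)) (Polynomial ℂ))
    (hF : ∀ i, (F i).IsHomogeneous d) (x : Fin (N + 1) → Polynomial ℂ) (α : ℂ)
    (h : CriticallyFiniteFor (member F α) (start x α)) :
    {t : ℂ | ¬ DMLAt (member F t) (start x t)}.Countable := by
  obtain ⟨K, hK, hSK, hKc⟩ := exists_countable_field
    ({c : ℂ | ∃ i κ k, c = ((F i).coeff κ).coeff k} ∪ {c : ℂ | ∃ i k, c = (x i).coeff k} ∪ {α})
    (((countable_coeffs F).union (countable_coeffs' x)).union (Set.countable_singleton α))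
  refine hKc.mono fun t ht => ?_
  by_contra htK
  exact ht (transc_at K hd F hF (fun i κ k => hSK (Or.inl (Or.inl ⟨i, κ, k, rfl⟩))) x
    (fun i k => hSK (Or.inl (Or.inr ⟨i, k, rfl⟩))) α (hSK (Or.inr rfl)) h t htK)

/-- The pencil spanned by a system of forms and an arbitrary one. -/
theorem pencil {d : ℕ} (hd : 1 ≤ d) (A G : Fin (N + 1) → MvPolynomial (Fin (N + 1)) ℂ)
    (hA : ∀ i, (A i).IsHomogeneous d) (hG : ∀ i, (G i).IsHomogeneous d)
    (h : CriticallyFinite A) : {u : ℂ | ¬ FullDML fun i => A i + C u * G i}.Countable := by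
  let F : Fin (N + 1) → MvPolynomial (Fin (N + 1)) (Polynomial ℂ) := fun i =>
    map Polynomial.C (A i) + C Polynomial.X * map Polynomial.C (G i)
  have hmem : ∀ u : ℂ, member F u = fun i => A i + C u * G i := by
    intro u
    funext i
    have h1 : (Polynomial.evalRingHom u).comp (Polynomial.C : ℂ →+* Polynomial ℂ) =
        RingHom.id ℂ := RingHom.ext fun a => by simp
    simp only [member, F, map_add, map_mul, map_map, h1, map_id, map_C,
      Polynomial.coe_evalRingHom, Polynomial.eval_X]
  have hF : ∀ i, (F i).IsHomogeneous d := by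
    intro i
    apply IsHomogeneous.add
    · exact (hA i).map _
    · have := (isHomogeneous_C (Fin (N + 1)) (Polynomial.X : Polynomial ℂ)).mul
        ((hG i).map Polynomial.C)
      rwa [zero_add] at this
  have h0 : CriticallyFinite (member F 0) := by
    rw [hmem]
    have h2 : (fun i => A i + C (0 : ℂ) * G i) = A := by
      funext i
      rw [C_0, zero_mul, add_zero]
    rw [h2]
    exact h
  have h3 := countable_full hd F hF 0 h0
  simpa only [hmem] using h3

end Pool.Agent.K6.H53.DML
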