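import Pool.Agent.K6.H53.DM.Near
import Pool.Agent.K6.H53.DM.Abs
import Pool.Agent.Results.MP_b15c9e_ag.StrictlyCriticallyFinite

/-!
Definitions for the results on families of endomorphisms of projective space with strictly critically
finite members, and the reduction of these results to the helper files.
-/

set_option autoImplicit false

open MvPolynomial Pool.Agent.K6.H53.DM

namespace Pool.Agent.K6.H53.DML

open Pool.Agent.H936R2 (pt jac)

variable {N : ℕ}

/-- The member at `t` of a family of systems of forms. -/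
noncomputable def member (F : Fin (N + 1) → MvPolynomial (Fin (N + 1)) (Polynomial ℂ)) (t : ℂ) :
    Fin (N + 1) → MvPolynomial (Fin (N + 1)) ℂ :=
  fun i => map (Polynomial.evalRingHom t) (F i)

/-- The point at `t` of a curve of points. -/
noncomputable def start (x : Fin (N + 1) → Polynomial ℂ) (t : ℂ) : Fin (N + 1) → ℂ :=
  fun i => (x i).eval t

/-- The self-map of `ℂ^{N+1}` given by `N + 1` polynomials. -/
noncomputable def coneMap (f : Fin (N + 1) → MvPolynomial (Fin (N + 1)) ℂ)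
    (x : Fin (N + 1) → ℂ) : Fin (N + 1) → ℂ :=
  fun i => eval x (f i)

/-- The forms have no common zero in projective space: they define an endomorphism of `ℙ^N`. -/
def IsEndo (f : Fin (N + 1) → MvPolynomial (Fin (N + 1)) ℂ) : Prop :=
  ∀ x : Fin (N + 1) → ℂ, coneMap f x = 0 → x = 0

/-- The closed subset of projective space given by a set of forms (as a set of nonzero vectors). -/
def zeroSet (S : Set (MvPolynomial (Fin (N + 1)) ℂ)) : Set (Fin (N + 1) → ℂ) :=
  {x | x ≠ 0 ∧ ∀ g ∈ S, eval x g = 0}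

/-- The critical locus: the zeros of the Jacobian determinant. -/
def critical (f : Fin (N + 1) → MvPolynomial (Fin (N + 1)) ℂ) : Set (Fin (N + 1) → ℂ) :=
  {x | (Matrix.of fun i j => eval x (pderiv j (f i))).det = 0}

/-- `f` is an endomorphism of `ℙ^N` which is strictly critically finite outside the totally invariant
closed set given by `B`. -/
def CriticallyFiniteOutside (f : Fin (N + 1) → MvPolynomial (Fin (N + 1)) ℂ)
    (B : Set (MvPolynomial (Fin (N + 1)) ℂ)) : Prop :=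
  IsEndo f ∧ ∃ (k : ℕ) (D : ℕ → Set (MvPolynomial (Fin (N + 1)) ℂ)),
    (∀ i, ∀ g ∈ D i, ∃ e : ℕ, g.IsHomogeneous e) ∧
    zeroSet (D 0) = {x | x ≠ 0} ∧ D k = B ∧
    (∀ i ≤ k, ∀ x ∈ zeroSet (D i), coneMap f x ∈ zeroSet (D i)) ∧
    (∀ i < k, ∃ m : ℕ, ∀ x ∈ zeroSet (D i), x ∈ critical f →
      (coneMap f)^[m] x ∈ zeroSet (D (i + 1))) ∧
    ∀ x, x ≠ 0 → coneMap f x ∈ zeroSet B → x ∈ zeroSet B

/-- `f` is a strictly critically finite endomorphism of `ℙ^N`. -/
def CriticallyFinite (f : Fin (N + 1) → MvPolynomial (Fin (N + 1)) ℂ) : Prop :=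
  ∃ B, zeroSet B = ∅ ∧ CriticallyFiniteOutside f B

/-- `f` is strictly critically finite outside a closed set which does not contain the point `P`. -/
def CriticallyFiniteFor (f : Fin (N + 1) → MvPolynomial (Fin (N + 1)) ℂ)
    (P : Fin (N + 1) → ℂ) : Prop :=
  ∃ B, CriticallyFiniteOutside f B ∧ P ≠ 0 ∧ P ∉ zeroSet B

/-- A finite union of arithmetic progressions `{a + k n}`, where `k = 0` is allowed. -/
def FiniteUnionAP (A : Set ℕ) : Prop :=
  ∃ T : Finset (ℕ × ℕ), A = {n : ℕ | ∃ q ∈ T, ∃ m : ℕ, n = q.1 * m + q.2}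

/-- All iterates of the point `a` are defined, and for all closed subsets of `ℙ^N` (given by sets `S` of
forms) the return set of `a` is a finite union of arithmetic progressions. -/
def DMLAt (f : Fin (N + 1) → MvPolynomial (Fin (N + 1)) ℂ) (a : Fin (N + 1) → ℂ) : Prop :=
  (∀ n, (coneMap f)^[n] a ≠ 0) ∧
  ∀ S : Set (MvPolynomial (Fin (N + 1)) ℂ), (∀ g ∈ S, ∃ e : ℕ, g.IsHomogeneous e) →
    FiniteUnionAP {n : ℕ | ∀ g ∈ S, eval ((coneMap f)^[n] a) g = 0}

/-- `f` is an endomorphism of `ℙ^N` with the full Dynamical Mordell-Lang property: all complex points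
and all closed subsets. -/
def FullDML (f : Fin (N + 1) → MvPolynomial (Fin (N + 1)) ℂ) : Prop :=
  IsEndo f ∧ ∀ a : Fin (N + 1) → ℂ, a ≠ 0 → DMLAt f a

/-- `t` is integral outside `m` with respect to the point `b` of the projective line (`none` is the
point at infinity). -/
def IntegralAt (m : ℕ) : Option ℂ → ℂ → Prop
  | none, t => ∃ k : ℕ, IsIntegral ℤ ((m : ℂ) ^ k * t)
  | some z, t => ∃ k : ℕ, IsIntegral ℤ ((m : ℂ) ^ k * (t - z)⁻¹)

/-- There are `C` and `r` such that the set `A` contains at most `C (log H)^r` of the rational numbers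
with denominator `v` and numerator at most `H`, for all `v ≤ H`, `H ≥ 2`. -/
def Sparse (A : Set ℂ) : Prop :=
  ∃ C r : ℕ, ∀ H v : ℕ, 2 ≤ H → v ≤ H → ∀ T : Finset ℚ,
    (∀ t ∈ T, t.den = v ∧ |t.num| ≤ H ∧ (t : ℂ) ∈ A) → (T.card : ℝ) ≤ C * Real.log H ^ r

/-- The family `(x_0 - (1 - t) x_{i+1})^d + (1 + t + … + t^(d-1)) G_i`, `i = 0, …, N`,
`x_{N+1} = x_0`. -/
noncomputable def perturbed (d : ℕ)
    (G : Fin (N + 1) → MvPolynomial (Fin (N + 1)) (Polynomial ℂ)) :
    Fin (N + 1) → MvPolynomial (Fin (N + 1)) (Polynomial ℂ) :=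
  fun i => (X 0 - C (1 - Polynomial.X) * X (i + 1)) ^ d +
    C (∑ j ∈ Finset.range d, Polynomial.X ^ j) * G i

/-! ### Reduction to the helper files -/

/-- The sets of the cone. -/
def cone (D : Set (MvPolynomial (Fin (N + 1)) ℂ)) : Set (MvPolynomial (Fin (N + 1)) ℂ) :=
  {h | ∃ g ∈ D, ∃ j, h = X j * g}

theorem cone_iff (D : Set (MvPolynomial (Fin (N + 1)) ℂ)) (z : Fin (N + 1) → ℂ) :
    (∀ h ∈ cone D, eval z h = 0) ↔ (z = 0 ∨ z ∈ zeroSet D) := by
  constructor
  · intro h
    by_cases hz : z = 0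
    · exact Or.inl hz
    · refine Or.inr ⟨hz, fun g hg => ?_⟩
      obtain ⟨j, hj⟩ := Function.ne_iff.1 hz
      have h1 := h _ ⟨g, hg, j, rfl⟩
      rw [map_mul, eval_X] at h1
      exact (mul_eq_zero.1 h1).resolve_left hj
  · rintro (rfl | h) _ ⟨g, hg, j, rfl⟩
    · rw [map_mul, eval_X]
      simp
    · rw [map_mul, h.2 g hg, mul_zero]

theorem pt_eq (f : Fin (N + 1) → MvPolynomial (Fin (N + 1)) ℂ) : pt f = coneMap f := rfl

theorem pt_zero {d : ℕ} (hd : 1 ≤ d) (f : Fin (N + 1) → MvPolynomial (Fin (N + 1)) ℂ)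
    (hf : ∀ i, (f i).IsHomogeneous d) : coneMap f 0 = 0 := by
  funext i
  change eval 0 (f i) = 0
  have h1 := Pool.Agent.H936R2.eval_scale (f i) d (hf i) 0 0
  rw [zero_pow (by omega), zero_mul] at h1
  rw [← h1]
  congr 1
  simp only [Pi.zero_apply, mul_zero]
  rfl

theorem chain {d : ℕ} (hd : 1 ≤ d) (f : Fin (N + 1) → MvPolynomial (Fin (N + 1)) ℂ)
    (hf : ∀ i, (f i).IsHomogeneous d) (k : ℕ) (D : ℕ → Set (MvPolynomial (Fin (N + 1)) ℂ))
    (h0 : zeroSet (D 0) = {x | x ≠ 0})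
    (hinv : ∀ i ≤ k, ∀ x ∈ zeroSet (D i), coneMap f x ∈ zeroSet (D i))
    (hcrit : ∀ i < k, ∃ m : ℕ, ∀ x ∈ zeroSet (D i), x ∈ critical f →
      (coneMap f)^[m] x ∈ zeroSet (D (i + 1))) : Chain f k fun i => cone (D i) := by
  have hp0 := pt_zero hd f hf
  have hit0 : ∀ n, (coneMap f)^[n] 0 = 0 := by
    intro n
    induction n with
    | zero => rfl
    | succ n ih => rw [Function.iterate_succ_apply', ih, hp0]
  refine ⟨fun z => ?_, fun i hi z hz => ?_, fun i hi => ?_⟩
  · rw [cone_iff]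
    by_cases h : z = 0
    · exact Or.inl h
    · refine Or.inr ?_
      rw [h0]
      exact h
  · rw [cone_iff] at hz ⊢
    rcases hz with rfl | h
    · exact Or.inl hp0
    · exact Or.inr (hinv i hi z h)
  · obtain ⟨m, hm⟩ := hcrit i hi
    refine ⟨m, fun z hz hj => ?_⟩
    rw [cone_iff] at hz ⊢
    rcases hz with rfl | h
    · exact Or.inl (hit0 m)
    · exact Or.inr (hm z h hj)

theorem goodAll {d : ℕ} (hd : 1 ≤ d) (f : Fin (N + 1) → MvPolynomial (Fin (N + 1)) ℂ)
    (hf : ∀ i, (f i).IsHomogeneous d) (h : CriticallyFinite f) : GoodAll f := by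
  obtain ⟨B, hB, h1, k, D, hD, hD0, rfl, hinv, hcrit, htot⟩ := h
  refine goodAll_of_chain f (fun x hx => h1 x (funext hx)) k _
    (chain hd f hf k D hD0 hinv hcrit) fun z hz => ?_
  rcases (cone_iff _ _).1 hz with h | h
  · exact h
  · rw [hB] at h
    exact h.elim

theorem goodAt {d : ℕ} (hd : 1 ≤ d) (f : Fin (N + 1) → MvPolynomial (Fin (N + 1)) ℂ)
    (hf : ∀ i, (f i).IsHomogeneous d) (P : Fin (N + 1) → ℂ) (h : CriticallyFiniteFor f P) :
    GoodAt f P := by
  classical
  obtain ⟨B, ⟨h1, k, D, hD, hD0, rfl, hinv, hcrit, htot⟩, hP, hPB⟩ := h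
  obtain ⟨E, hED, hE⟩ := finite_sub (cone (D k))
  have hEz : ∀ z : Fin (N + 1) → ℂ, (∀ g ∈ E, eval z g = 0) ↔ (z = 0 ∨ z ∈ zeroSet (D k)) := by
    intro z
    rw [← cone_iff]
    constructor
    · intro h g hg
      by_contra hne
      obtain ⟨g', hg', hne'⟩ := hE z ⟨g, hg, hne⟩
      exact hne' (h g' hg')
    · exact fun h g hg => h g (hED hg)
  refine goodAt_of_chain f P (fun x hx => h1 x (funext hx)) k _
    (chain hd f hf k D hD0 hinv hcrit) E (fun z hz g hg => hz g (hED hg)) (fun z hz => ?_) ?_ hP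
  · rw [hEz] at hz ⊢
    rcases hz with h | h
    · exact Or.inl (h1 z h)
    · by_cases hz0 : z = 0
      · exact Or.inl hz0
      · exact Or.inr (htot z hz0 h)
  · by_contra hno
    push Not at hno
    rcases (hEz P).1 hno with h | h
    · exact hP h
    · exact hPB h

theorem fullDML_of (f : Fin (N + 1) → MvPolynomial (Fin (N + 1)) ℂ)
    (h : Pool.Agent.K6.H53.DM.RawDML f) : FullDML f := by
  obtain ⟨h1, h2⟩ := h
  have h3 : IsEndo f := fun x hx => h1 x fun i => congrFun hx i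
  refine ⟨h3, fun a ha => ⟨fun n => ?_, fun S hS => h2 S hS a ha⟩⟩
  exact Pool.Agent.H936R2.pt_ne_zero f h1 a ha n

theorem dmlAt_of (f : Fin (N + 1) → MvPolynomial (Fin (N + 1)) ℂ) (a : Fin (N + 1) → ℂ)
    (h : Pool.Agent.Y199.DM.DMLAt f a) : DMLAt f a := ⟨h.1, fun S _ => h.2 S⟩

theorem holdsNear_full {d : ℕ} (hd : 1 ≤ d)
    (F : Fin (N + 1) → MvPolynomial (Fin (N + 1)) (Polynomial ℂ))
    (hF : ∀ i, (F i).IsHomogeneous d) (α : ℂ) (h : CriticallyFinite (member F α)) :
    HoldsNear (fun t => FullDML (member F t)) α := by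
  obtain ⟨s, hs⟩ := near_full (RingHom.id ℂ) F hF α
    (goodAll hd (member F α) (fun i => (hF i).map _) h)
  exact ⟨s, fun p _ τ hτ t ht => fullDML_of _ (hs p τ hτ t ht)⟩

theorem holdsNear_at {d : ℕ} (hd : 1 ≤ d)
    (F : Fin (N + 1) → MvPolynomial (Fin (N + 1)) (Polynomial ℂ))
    (hF : ∀ i, (F i).IsHomogeneous d) (x : Fin (N + 1) → Polynomial ℂ) (α : ℂ)
    (h : CriticallyFiniteFor (member F α) (start x α)) :
    HoldsNear (fun t => DMLAt (member F t) (start x t)) α := by
  obtain ⟨s, hs⟩ := near_point (RingHom.id ℂ) F x α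
    (goodAt hd (member F α) (fun i => (hF i).map _) _ h)
  exact ⟨s, fun p _ τ hτ t ht => dmlAt_of _ _ (hs p τ hτ t ht)⟩

/-! ### Fields of definition -/

theorem lift_poly (K : Subfield ℂ) (q : Polynomial ℂ) (h : ∀ k, q.coeff k ∈ K) :
    ∃ r : Polynomial K, r.map K.subtype = q := by
  have h1 : q ∈ Polynomial.lifts K.subtype := by
    rw [Polynomial.lifts_iff_coeff_lifts]
    exact fun k => ⟨⟨q.coeff k, h k⟩, rfl⟩
  exact (Polynomial.mem_lifts _).1 h1

theorem lift_mv (K : Subfield ℂ) (P : MvPolynomial (Fin (N + 1)) (Polynomial ℂ))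
    (h : ∀ κ k, (P.coeff κ).coeff k ∈ K) :
    ∃ Q : MvPolynomial (Fin (N + 1)) (Polynomial K),
      map (Polynomial.mapRingHom K.subtype) Q = P := by
  have h1 : P ∈ Set.range (map (σ := Fin (N + 1)) (Polynomial.mapRingHom K.subtype)) := by
    rw [mem_range_map_iff_coeffs_subset]
    intro c hc
    rw [Finset.mem_coe, mem_coeffs_iff] at hc
    obtain ⟨κ, -, rfl⟩ := hc
    exact lift_poly K _ (h κ)
  exact h1

theorem hom_one (K : Subfield ℂ) (u : ℂ) : Polynomial.eval₂RingHom K.subtype u =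
    (Polynomial.evalRingHom u).comp (Polynomial.mapRingHom K.subtype) :=
  Polynomial.ringHom_ext (by simp) (by simp)

theorem hom_two (K : Subfield ℂ) (α : K) : (algebraMap K ℂ).comp (Polynomial.evalRingHom α) =
    Polynomial.eval₂RingHom K.subtype (α : ℂ) :=
  Polynomial.ringHom_ext (fun a => by
    simp
    rfl) (by
    simp
    rfl)

theorem transc_full (K : Subfield ℂ) [IsAlgClosed K] {d : ℕ} (hd : 1 ≤ d)
    (F : Fin (N + 1) → MvPolynomial (Fin (N + 1)) (Polynomial ℂ))
    (hF : ∀ i, (F i).IsHomogeneous d) (hFK : ∀ i κ k, ((F i).coeff κ).coeff k ∈ K)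
    (α : ℂ) (hα : α ∈ K) (h : CriticallyFinite (member F α)) (t : ℂ) (ht : t ∉ K) :
    FullDML (member F t) := by
  classical
  choose F' hF' using fun i => lift_mv K (F i) (hFK i)
  have hinj : Function.Injective (Polynomial.mapRingHom K.subtype) :=
    Polynomial.map_injective _ K.subtype.injective
  have hFhom : ∀ i, (F' i).IsHomogeneous d := by
    intro i
    have h1 := hF i
    rw [← hF' i] at h1
    exact h1.of_map hinj
  have hmem : ∀ u : ℂ, memC K.subtype F' u = member F u := by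
    intro u
    funext i
    rw [memC, member, ← hF' i, map_map, hom_one]
  have hmemK : (fun i => map (algebraMap K ℂ) (memK F' ⟨α, hα⟩ i)) = member F α := by
    rw [← hmem]
    funext i
    rw [memK, memC, map_map, hom_two]
  have hgood : GoodAll (memK F' ⟨α, hα⟩) := by
    apply GoodAll.descend (C := ℂ)
    rw [hmemK]
    exact goodAll hd _ (fun i => (hF i).map _) h
  obtain ⟨s, hs⟩ := near_full K.subtype F' hFhom ⟨α, hα⟩ hgood
  obtain ⟨p, hp, τ, hτ, hlt⟩ := transc_of_near K α hα (s.image K.subtype) (by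
    intro y hy
    rw [Finset.mem_coe, Finset.mem_image] at hy
    obtain ⟨z, -, rfl⟩ := hy
    exact z.2) t ht
  have h1 := hs p τ (fun y hy => hτ _ (Finset.mem_image_of_mem _ hy)) t hlt
  rw [hmem] at h1
  exact fullDML_of _ h1

theorem transc_at (K : Subfield ℂ) [IsAlgClosed K] {d : ℕ} (hd : 1 ≤ d)
    (F : Fin (N + 1) → MvPolynomial (Fin (N + 1)) (Polynomial ℂ))
    (hF : ∀ i, (F i).IsHomogeneous d) (hFK : ∀ i κ k, ((F i).coeff κ).coeff k ∈ K)
    (x : Fin (N + 1) → Polynomial ℂ) (hxK : ∀ i k, (x i).coeff k ∈ K)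
    (α : ℂ) (hα : α ∈ K) (h : CriticallyFiniteFor (member F α) (start x α)) (t : ℂ) (ht : t ∉ K) :
    DMLAt (member F t) (start x t) := by
  classical
  choose F' hF' using fun i => lift_mv K (F i) (hFK i)
  choose x' hx' using fun i => lift_poly K (x i) (hxK i)
  have hmem : ∀ u : ℂ, memC K.subtype F' u = member F u := by
    intro u
    funext i
    rw [memC, member, ← hF' i, map_map, hom_one]
  have hmemK : (fun i => map (algebraMap K ℂ) (memK F' ⟨α, hα⟩ i)) = member F α := by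
    rw [← hmem]
    funext i
    rw [memK, memC, map_map, hom_two]
  have hx1 : ∀ u : ℂ, (fun i => (x' i).eval₂ K.subtype u) = start x u := by
    intro u
    funext i
    rw [start, ← hx' i, Polynomial.eval_map]
  have hgood : GoodAt (memK F' ⟨α, hα⟩) fun i => (x' i).eval ⟨α, hα⟩ := by
    apply GoodAt.descend (C := ℂ)
    rw [hmemK]
    have h2 : (fun i => algebraMap K ℂ ((x' i).eval ⟨α, hα⟩)) = start x α := by
      rw [← hx1]
      funext i
      exact (Polynomial.eval₂_at_apply K.subtype _).symm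
    rw [h2]
    exact goodAt hd _ (fun i => (hF i).map _) _ h
  obtain ⟨s, hs⟩ := near_point K.subtype F' x' ⟨α, hα⟩ hgood
  obtain ⟨p, hp, τ, hτ, hlt⟩ := transc_of_near K α hα (s.image K.subtype) (by
    intro y hy
    rw [Finset.mem_coe, Finset.mem_image] at hy
    obtain ⟨z, -, rfl⟩ := hy
    exact z.2) t ht
  have h1 := hs p τ (fun y hy => hτ _ (Finset.mem_image_of_mem _ hy)) t hlt
  rw [hmem, hx1] at h1
  exact dmlAt_of _ _ h1

/-! ### The example -/

theorem fs_finite {d : ℕ} (hd : 1 ≤ d) {ζ : ℂ} (hζ : ζ ^ d = 1) (hζ1 : ζ ≠ 1) :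
    CriticallyFinite (Pool.Agent.Results.MP_b15c9e_ag.StrictlyCriticallyFinite.fsMap N d ζ) := by
  have hd0 : d ≠ 0 := by omega
  have hζ0 : ζ ≠ 0 := by
    rintro rfl
    rw [zero_pow hd0] at hζ
    exact zero_ne_one hζ
  refine ⟨{1}, ?_, fun x hx => ?_, Pool.Agent.Results.MP_b15c9e_ag.StrictlyCriticallyFinite.fs_strict hd hζ hζ1⟩
  · ext x
    constructor
    · rintro ⟨-, h⟩
      have := h 1 rfl
      rw [map_one] at this
      exact one_ne_zero this
    · exact fun h => h.elim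
  · exact Pool.Agent.R847.PC.fs_ne hd0 hζ1 hζ0 x fun i => congrFun hx i

theorem member_perturbed (d : ℕ) (G : Fin (N + 1) → MvPolynomial (Fin (N + 1)) (Polynomial ℂ))
    {ζ : ℂ} (hζ : ζ ^ d = 1) (hζ1 : ζ ≠ 1) :
    member (perturbed d G) ζ = Pool.Agent.Results.MP_b15c9e_ag.StrictlyCriticallyFinite.fsMap N d ζ := by
  funext i
  have h1 : ∑ j ∈ Finset.range d, ζ ^ j = 0 := by
    have h2 := geom_sum_mul ζ d
    rw [hζ, sub_self] at h2
    exact (mul_eq_zero.1 h2).resolve_right (sub_ne_zero.2 hζ1)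
  have h3 : (∑ j ∈ Finset.range d, (Polynomial.X : Polynomial ℂ) ^ j).eval ζ = 0 := by
    rw [Polynomial.eval_finsetSum]
    simpa using h1
  have h4 : (C 0 : MvPolynomial (Fin (N + 1)) ℂ) = 0 := C_0
  simp only [member, perturbed, map_add, map_pow, map_sub, map_mul, map_X, map_C,
    Polynomial.coe_evalRingHom, Polynomial.eval_one, Polynomial.eval_X, h3, h4,
    zero_mul, add_zero, Pool.Agent.Results.MP_b15c9e_ag.StrictlyCriticallyFinite.fsMap]

theorem perturbed_homogeneous {d : ℕ}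
    (G : Fin (N + 1) → MvPolynomial (Fin (N + 1)) (Polynomial ℂ))
    (hG : ∀ i, (G i).IsHomogeneous d) (i : Fin (N + 1)) : (perturbed d G i).IsHomogeneous d := by
  apply IsHomogeneous.add
  · have h1 : (X 0 - C (1 - Polynomial.X) * X (i + 1) :
        MvPolynomial (Fin (N + 1)) (Polynomial ℂ)).IsHomogeneous 1 :=
      (isHomogeneous_X _ _).sub (by
        have := (isHomogeneous_C (Fin (N + 1)) (1 - Polynomial.X : Polynomial ℂ)).mul
          (isHomogeneous_X (Polynomial ℂ) (i + 1))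
        rwa [zero_add] at this)
    have h2 := h1.pow d
    rwa [one_mul] at h2
  · have := (isHomogeneous_C (Fin (N + 1))
      (∑ j ∈ Finset.range d, (Polynomial.X : Polynomial ℂ) ^ j)).mul (hG i)
    rwa [zero_add] at this


end Pool.Agent.K6.H53.DML
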