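import Pool.Agent.K6.H53.DM.Scf

set_option autoImplicit false

/-! Systems with a good reduction at all places at which finitely many numbers are integral, and the
descent of this property to algebraically closed fields of definition. -/

namespace Pool.Agent.K6.H53.DM

open MvPolynomial Pool.Agent.H936R2

variable {K : Type} [Field K] {N : ℕ}

lemma ev_X {R : Subring K} {k : Type} [CommRing k] (ρ : R →+* k) {ι : Type} (z : ι → k) (j : ι) :
    ev ρ z (X j : MvPolynomial ι K) = z j := by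
  have h : (X j : MvPolynomial ι K) = map R.subtype (X j) := by rw [map_X]
  rw [h, ev_map, eval₂_X]

/-- Reductions define endomorphisms without periodic critical points. -/
def GoodAll (f : Fin (N + 1) → MvPolynomial (Fin (N + 1)) K) : Prop :=
  ∃ s : Finset K, ∀ R : Subring K, (s : Set K) ⊆ R → ∃ fR : Fin (N + 1) → MvPolynomial (Fin (N + 1)) R,
    (∀ i, map R.subtype (fR i) = f i) ∧ ∀ (k' : Type) [Field k'] (ρ : R →+* k'),
      (∀ x : Fin (N + 1) → k', pt (fun i => map ρ (fR i)) x = 0 → x = 0) ∧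
      ∀ x : Fin (N + 1) → k', x ≠ 0 → ∀ m : ℕ, 0 < m →
        (pt fun i => map ρ (fR i))^[m] x = x → (jac (fun i => map ρ (fR i)) x).det ≠ 0

/-- The reductions of the orbit of `P` do not vanish and their periodic points are not critical. -/
def GoodAt (f : Fin (N + 1) → MvPolynomial (Fin (N + 1)) K) (P : Fin (N + 1) → K) : Prop :=
  ∃ s : Finset K, ∀ R : Subring K, (s : Set K) ⊆ R →
    ∃ (fR : Fin (N + 1) → MvPolynomial (Fin (N + 1)) R) (b : Fin (N + 1) → R),
    (∀ i, map R.subtype (fR i) = f i) ∧ (∀ i, (b i : K) = P i) ∧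
    ∀ (k' : Type) [Field k'] (ρ : R →+* k') (n : ℕ),
      (pt fun i => map ρ (fR i))^[n] (fun i => ρ (b i)) ≠ 0 ∧
      ∀ q : ℕ, 0 < q → (pt fun i => map ρ (fR i))^[q]
          ((pt fun i => map ρ (fR i))^[n] (fun i => ρ (b i))) =
            (pt fun i => map ρ (fR i))^[n] (fun i => ρ (b i)) →
        (jac (fun i => map ρ (fR i)) ((pt fun i => map ρ (fR i))^[n] (fun i => ρ (b i)))).det ≠ 0

/-- Strictly critically finite maps are good. -/
theorem goodAll_of_chain [IsAlgClosed K] (f : Fin (N + 1) → MvPolynomial (Fin (N + 1)) K)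
    (h0 : ∀ x : Fin (N + 1) → K, (∀ i, eval x (f i) = 0) → x = 0)
    (k : ℕ) (D : ℕ → Set (MvPolynomial (Fin (N + 1)) K)) (hD : Chain f k D)
    (hDk : ∀ z : Fin (N + 1) → K, (∀ g ∈ D k, eval z g = 0) → z = 0) : GoodAll f := by
  classical
  let E : Finset (MvPolynomial (Fin (N + 1)) K) := Finset.univ.image fun j => X j
  have hEz : ∀ z : Fin (N + 1) → K, (∀ g ∈ E, eval z g = 0) ↔ z = 0 := by
    intro z
    constructor
    · intro h
      funext j
      have := h (X j) (Finset.mem_image_of_mem _ (Finset.mem_univ j))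
      rwa [eval_X] at this
    · rintro rfl g hg
      obtain ⟨j, -, rfl⟩ := Finset.mem_image.1 hg
      rw [eval_X]
      rfl
  obtain ⟨s1, hs1⟩ := reduction f k D hD E (fun z hz => (hEz z).2 (hDk z hz))
    (fun z hz => (hEz z).2 (h0 z fun i => congrFun ((hEz _).1 hz) i))
  refine ⟨s1, fun R hR => ?_⟩
  obtain ⟨fR, hfR, -, hred⟩ := hs1 R hR
  refine ⟨fR, hfR, fun k' _ ρ => ?_⟩
  obtain ⟨hr1, hr2⟩ := hred k' ρ
  have hEx : ∀ x : Fin (N + 1) → k', (∀ g ∈ E, ev ρ x g = 0) ↔ x = 0 := by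
    intro x
    constructor
    · intro h
      funext j
      have := h (X j) (Finset.mem_image_of_mem _ (Finset.mem_univ j))
      rwa [ev_X] at this
    · rintro rfl g hg
      obtain ⟨j, -, rfl⟩ := Finset.mem_image.1 hg
      rw [ev_X]
      rfl
  exact ⟨fun x hx => (hEx x).1 (hr2 x ((hEx _).2 hx)),
    fun x hx m hm hper hdet => hx ((hEx x).1 (hr1 x m hm hper hdet))⟩

/-- Points outside the totally invariant set are good. -/
theorem goodAt_of_chain [IsAlgClosed K] (f : Fin (N + 1) → MvPolynomial (Fin (N + 1)) K)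
    (P : Fin (N + 1) → K)
    (h0 : ∀ x : Fin (N + 1) → K, (∀ i, eval x (f i) = 0) → x = 0)
    (k : ℕ) (D : ℕ → Set (MvPolynomial (Fin (N + 1)) K)) (hD : Chain f k D)
    (E : Finset (MvPolynomial (Fin (N + 1)) K))
    (hE : ∀ z : Fin (N + 1) → K, (∀ g ∈ D k, eval z g = 0) → ∀ g ∈ E, eval z g = 0)
    (htot : ∀ z : Fin (N + 1) → K, (∀ g ∈ E, eval (pt f z) g = 0) →
      ∀ g ∈ E, eval z g = 0)
    (hP : ∃ g ∈ E, eval P g ≠ 0) (hP0 : P ≠ 0) : GoodAt f P := by
  classical
  obtain ⟨g0, hg0, hg0P⟩ := hP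
  obtain ⟨i0, hi0⟩ := Function.ne_iff.1 hP0
  simp only [Pi.zero_apply] at hi0
  obtain ⟨s1, hs1⟩ := reduction f k D hD E hE htot
  obtain ⟨s3, hs3⟩ := cert_finset (Finset.univ.image f)
    (Finset.univ.image fun j => (X j : MvPolynomial (Fin (N + 1)) K)) (by
      intro z hz g hg
      obtain ⟨j, -, rfl⟩ := Finset.mem_image.1 hg
      have := h0 z fun i => hz _ (Finset.mem_image_of_mem _ (Finset.mem_univ i))
      rw [eval_X, this]
      rfl)
  let s : Finset K := s1 ∪ s3 ∪ Finset.univ.image P ∪ {(eval P g0)⁻¹, (P i0)⁻¹}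
  refine ⟨s, fun R hsR => ?_⟩
  have hR : ∀ y ∈ s, y ∈ R := fun y hy => hsR hy
  obtain ⟨fR, hfR, hEInt, hred⟩ := hs1 R fun y hy => hR y (by simp [s, Finset.mem_coe.1 hy])
  have hcert := hs3 R (fun y hy => hR y (by simp [s, Finset.mem_coe.1 hy])) (by
    intro g hg
    obtain ⟨i, -, rfl⟩ := Finset.mem_image.1 hg
    exact ⟨fR i, hfR i⟩) (by
    intro g hg
    obtain ⟨i, -, rfl⟩ := Finset.mem_image.1 hg
    exact ⟨X i, by rw [map_X]⟩)
  have hPR : ∀ i, P i ∈ R := by
    intro i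
    apply hR
    have : P i ∈ Finset.univ.image P := Finset.mem_image_of_mem _ (Finset.mem_univ _)
    simp only [s, Finset.mem_union]
    tauto
  have hinv0 : (eval P g0)⁻¹ ∈ R := hR _ (by simp [s])
  have hinv1 : (P i0)⁻¹ ∈ R := hR _ (by simp [s])
  let b : Fin (N + 1) → R := fun i => ⟨P i, hPR i⟩
  refine ⟨fR, b, hfR, fun i => rfl, fun k' _ ρ n => ?_⟩
  obtain ⟨hr1, hr2⟩ := hred k' ρ
  set fb : Fin (N + 1) → MvPolynomial (Fin (N + 1)) k' := fun i => map ρ (fR i) with hfb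
  set z : ℕ → Fin (N + 1) → k' := fun n => (pt fb)^[n] (fun i => ρ (b i)) with hz
  have hnz : ∀ x : Fin (N + 1) → k', pt fb x = 0 → x = 0 := by
    intro x hx
    funext j
    have h1 := hcert k' ρ x (by
      intro P' hP'
      obtain ⟨i, -, rfl⟩ := Finset.mem_image.1 hP'
      rw [← hfR i, ev_map, eval₂_eq_eval_map]
      exact congrFun hx i) (X j) (Finset.mem_image_of_mem _ (Finset.mem_univ j))
    rwa [ev_X] at h1
  have hz0 : z 0 ≠ 0 := by
    intro h
    have h1 : ρ (b i0) = 0 := congrFun h i0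
    have h2 : b i0 * ⟨(P i0)⁻¹, hinv1⟩ = 1 := Subtype.ext (mul_inv_cancel₀ hi0)
    have h3 := congrArg ρ h2
    rw [map_mul, h1, zero_mul, map_one] at h3
    exact zero_ne_one h3
  have hzs : ∀ n, z (n + 1) = pt fb (z n) := fun n => Function.iterate_succ_apply' _ _ _
  have hzn : ∀ n, z n ≠ 0 := by
    intro n
    induction n with
    | zero => exact hz0
    | succ n ih =>
      intro h
      rw [hzs] at h
      exact ih (hnz _ h)
  have hzB0 : ¬ ∀ g ∈ E, ev ρ (z 0) g = 0 := by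
    intro h
    have h1 := h g0 hg0
    obtain ⟨Q, hQ⟩ := hEInt g0 hg0
    rw [← hQ, ev_map] at h1
    have h5 : eval₂ ρ (z 0) Q = ρ (eval b Q) := by
      have h6 := eval₂_comp_left ρ (RingHom.id _) b Q
      rw [RingHom.comp_id] at h6
      exact h6.symm
    rw [h5] at h1
    have h7 : ((eval b Q : R) : K) = eval P g0 := by
      rw [← hQ, eval_map]
      have h6 := eval₂_comp_left R.subtype (RingHom.id _) b Q
      rw [RingHom.comp_id] at h6
      exact h6
    have h8 : eval b Q * ⟨(eval P g0)⁻¹, hinv0⟩ = 1 := by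
      apply Subtype.ext
      change ((eval b Q : R) : K) * (eval P g0)⁻¹ = 1
      rw [h7]
      exact mul_inv_cancel₀ hg0P
    have h9 := congrArg ρ h8
    rw [map_mul, h1, zero_mul, map_one] at h9
    exact zero_ne_one h9
  have hzB : ∀ n, ¬ ∀ g ∈ E, ev ρ (z n) g = 0 := by
    intro n
    induction n with
    | zero => exact hzB0
    | succ n ih =>
      intro h
      rw [hzs] at h
      exact ih (hr2 _ h)
  exact ⟨hzn n, fun q hq hper hdet => hzB n (hr1 (z n) q hq hper hdet)⟩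

/-- A finitely generated algebra in `C` over an algebraically closed field has a point. -/
lemma exists_point {C : Type} [Field C] [Algebra K C] [IsAlgClosed K] (s : Finset C) :
    Nonempty (Algebra.adjoin K (s : Set C) →ₐ[K] K) := by
  classical
  set A := Algebra.adjoin K (s : Set C) with hA
  have : Algebra.FiniteType K A :=
    (Subalgebra.fg_iff_finiteType _).1 ⟨s, rfl⟩
  obtain ⟨M, hM⟩ := Ideal.exists_maximal A
  let _ : Field (A ⧸ M) := Ideal.Quotient.field M
  have : Algebra.FiniteType K (A ⧸ M) :=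
    Algebra.FiniteType.of_surjective (Ideal.Quotient.mkₐ K M) (Ideal.Quotient.mkₐ_surjective K M)
  have : Module.Finite K (A ⧸ M) := finite_of_finite_type_of_isJacobsonRing K (A ⧸ M)
  have : Algebra.IsIntegral K (A ⧸ M) := Algebra.IsIntegral.of_finite K (A ⧸ M)
  have hbij := IsAlgClosed.algebraMap_bijective_of_isIntegral (k := K) (K := A ⧸ M)
  let e : K ≃ₐ[K] (A ⧸ M) := AlgEquiv.ofBijective (Algebra.ofId K (A ⧸ M)) hbij
  exact ⟨e.symm.toAlgHom.comp (Ideal.Quotient.mkₐ K M)⟩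

section descend

variable {C : Type} [Field C] [Algebra K C]

/-- The elements of `K[s]` whose image under `ψ` is in `R`. -/
def bigRing {A : Subalgebra K C} (ψ : A →ₐ[K] K) (R : Subring K) : Subring C :=
  (R.comap ψ.toRingHom).map A.val.toRingHom

lemma mem_bigRing {A : Subalgebra K C} (ψ : A →ₐ[K] K) (R : Subring K) (y : C) :
    y ∈ bigRing ψ R ↔ ∃ h : y ∈ A, ψ ⟨y, h⟩ ∈ R := by
  constructor
  · rintro ⟨a, ha, rfl⟩
    exact ⟨a.2, ha⟩
  · rintro ⟨h, h1⟩
    exact ⟨⟨y, h⟩, h1, rfl⟩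

/-- The specialization. -/
noncomputable def spec {A : Subalgebra K C} (ψ : A →ₐ[K] K) (R : Subring K) :
    bigRing ψ R →+* R where
  toFun y := ⟨ψ ⟨y.1, ((mem_bigRing ψ R y.1).1 y.2).choose⟩,
    ((mem_bigRing ψ R y.1).1 y.2).choose_spec⟩
  map_one' := Subtype.ext (map_one ψ)
  map_zero' := Subtype.ext (map_zero ψ)
  map_mul' a b := Subtype.ext (map_mul ψ ⟨a.1, ((mem_bigRing ψ R a.1).1 a.2).choose⟩
    ⟨b.1, ((mem_bigRing ψ R b.1).1 b.2).choose⟩)
  map_add' a b := Subtype.ext (map_add ψ ⟨a.1, ((mem_bigRing ψ R a.1).1 a.2).choose⟩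
    ⟨b.1, ((mem_bigRing ψ R b.1).1 b.2).choose⟩)

lemma spec_eq {A : Subalgebra K C} (ψ : A →ₐ[K] K) (R : Subring K) (y : bigRing ψ R) (x : K)
    (h : (y : C) = algebraMap K C x) : ((spec ψ R y : R) : K) = x := by
  change ψ ⟨y.1, _⟩ = x
  have h1 : (⟨y.1, ((mem_bigRing ψ R y.1).1 y.2).choose⟩ : A) = algebraMap K A x :=
    Subtype.ext h
  rw [h1, AlgHom.commutes]
  rfl

lemma exists_spec [IsAlgClosed K] (s : Finset C) : ∃ (s' : Finset K),
    ∀ R : Subring K, (s' : Set K) ⊆ R → ∃ (R1 : Subring C) (χ : R1 →+* R), (s : Set C) ⊆ R1 ∧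
      ∀ (y : R1) (x : K), (y : C) = algebraMap K C x → ((χ y : R) : K) = x := by
  classical
  obtain ⟨ψ⟩ := exists_point (K := K) s
  have hmem : ∀ y ∈ s, y ∈ Algebra.adjoin K (s : Set C) := fun y hy => Algebra.subset_adjoin hy
  refine ⟨s.attach.image fun y => ψ ⟨y.1, hmem y.1 y.2⟩, fun R hR => ?_⟩
  refine ⟨bigRing ψ R, spec ψ R, fun y hy => ?_, spec_eq ψ R⟩
  rw [SetLike.mem_coe, mem_bigRing]
  refine ⟨hmem y hy, hR ?_⟩
  rw [Finset.mem_coe, Finset.mem_image]
  exact ⟨⟨y, hy⟩, Finset.mem_attach _ _, rfl⟩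

/-- **Descent.** -/
theorem GoodAll.descend [IsAlgClosed K] (f : Fin (N + 1) → MvPolynomial (Fin (N + 1)) K)
    (h : GoodAll fun i => map (algebraMap K C) (f i)) : GoodAll f := by
  classical
  obtain ⟨s, hs⟩ := h
  obtain ⟨s', hs'⟩ := exists_spec (K := K) s
  refine ⟨s', fun R hR => ?_⟩
  obtain ⟨R1, χ, hsR1, hχ⟩ := hs' R hR
  obtain ⟨fR1, hfR1, hgood⟩ := hs R1 hsR1
  refine ⟨fun i => map χ (fR1 i), fun i => ?_, fun k' _ ρ => ?_⟩
  · ext κ
    rw [coeff_map, coeff_map]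
    apply hχ
    have := congrArg (coeff κ) (hfR1 i)
    rwa [coeff_map, coeff_map] at this
  · have h1 := hgood k' (ρ.comp χ)
    simpa only [map_map] using h1

/-- **Descent.** -/
theorem GoodAt.descend [IsAlgClosed K] (f : Fin (N + 1) → MvPolynomial (Fin (N + 1)) K)
    (P : Fin (N + 1) → K)
    (h : GoodAt (fun i => map (algebraMap K C) (f i)) fun i => algebraMap K C (P i)) :
    GoodAt f P := by
  classical
  obtain ⟨s, hs⟩ := h
  obtain ⟨s', hs'⟩ := exists_spec (K := K) s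
  refine ⟨s', fun R hR => ?_⟩
  obtain ⟨R1, χ, hsR1, hχ⟩ := hs' R hR
  obtain ⟨fR1, b1, hfR1, hb1, hgood⟩ := hs R1 hsR1
  refine ⟨fun i => map χ (fR1 i), fun i => χ (b1 i), fun i => ?_, fun i => ?_, fun k' _ ρ => ?_⟩
  · ext κ
    rw [coeff_map, coeff_map]
    apply hχ
    have := congrArg (coeff κ) (hfR1 i)
    rwa [coeff_map, coeff_map] at this
  · exact hχ _ _ (hb1 i)
  · have h1 := hgood k' (ρ.comp χ)
    simp only [map_map]
    exact h1

end descend

end Pool.Agent.K6.H53.DM
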