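import Pool.Agent.K6.H53.DM.Good
import Pool.Agent.Y199.DM.Orb

set_option autoImplicit false

/-! Members of a family which are near to a good member. -/

namespace Pool.Agent.K6.H53.DM

open MvPolynomial Pool.Agent.H936R2 Pool.Agent.Y199.DM

/-- the full dynamical Mordell-Lang property -/
def RawDML {N : ℕ} (f : Fin (N + 1) → MvPolynomial (Fin (N + 1)) ℂ) : Prop :=
  (∀ x : Fin (N + 1) → ℂ, (∀ i, eval x (f i) = 0) → x = 0) ∧
  ∀ S : Set (MvPolynomial (Fin (N + 1)) ℂ), (∀ g ∈ S, ∃ e : ℕ, g.IsHomogeneous e) →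
    ∀ a : Fin (N + 1) → ℂ, a ≠ 0 → ∃ T : Finset (ℕ × ℕ),
      {n : ℕ | ∀ g ∈ S, eval ((fun x : Fin (N + 1) → ℂ => fun i => eval x (f i))^[n] a) g = 0} =
        {n : ℕ | ∃ q ∈ T, ∃ m : ℕ, n = q.1 * m + q.2}

variable {K : Type} [Field K] {N : ℕ}

/-- the member at the complex number `t` -/
noncomputable def memC (σ : K →+* ℂ) (F : Fin (N + 1) → MvPolynomial (Fin (N + 1)) (Polynomial K))
    (t : ℂ) : Fin (N + 1) → MvPolynomial (Fin (N + 1)) ℂ :=
  fun i => map (Polynomial.eval₂RingHom σ t) (F i)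

/-- the member at the element `α` of the field of constants -/
noncomputable def memK (F : Fin (N + 1) → MvPolynomial (Fin (N + 1)) (Polynomial K))
    (α : K) : Fin (N + 1) → MvPolynomial (Fin (N + 1)) K :=
  fun i => map (Polynomial.evalRingHom α) (F i)

/-- The subring of the elements of `K` which are integral for `τ ∘ σ`. -/
noncomputable def intRing {p : ℕ} [Fact p.Prime] (σ : K →+* ℂ) (τ : ℂ →+* PadicAlgCl p) :
    Subring K := (unitBall (PadicAlgCl p)).comap (τ.comp σ)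

lemma mem_intRing {p : ℕ} [Fact p.Prime] (σ : K →+* ℂ) (τ : ℂ →+* PadicAlgCl p) (x : K) :
    x ∈ intRing σ τ ↔ ‖τ (σ x)‖ ≤ 1 := Iff.rfl

/-- The map to the unit ball. -/
noncomputable def toBall {p : ℕ} [Fact p.Prime] (σ : K →+* ℂ) (τ : ℂ →+* PadicAlgCl p) :
    intRing σ τ →+* unitBall (PadicAlgCl p) :=
  ((τ.comp σ).comp (intRing σ τ).subtype).codRestrict _ fun x => x.2

/-- The coefficients of the coefficients of a family. -/
lemma family_coeffs (F : Fin (N + 1) → MvPolynomial (Fin (N + 1)) (Polynomial K)) :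
    ∃ s : Finset K, ∀ R : Subring K, (s : Set K) ⊆ R → ∀ i κ k, ((F i).coeff κ).coeff k ∈ R := by
  classical
  refine ⟨Finset.univ.biUnion fun i => (F i).support.biUnion fun κ =>
    ((F i).coeff κ).support.image fun k => ((F i).coeff κ).coeff k, fun R hR i κ k => ?_⟩
  by_cases h : ((F i).coeff κ).coeff k = 0
  · rw [h]
    exact R.zero_mem
  · apply hR
    simp only [Finset.coe_biUnion, Set.mem_iUnion]
    refine ⟨i, by simp, κ, ?_, ?_⟩
    · rw [Finset.mem_coe, mem_support_iff]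
      intro h0
      rw [h0, Polynomial.coeff_zero] at h
      exact h rfl
    · simp only [Finset.coe_image, Set.mem_image]
      exact ⟨k, by simpa using h, rfl⟩

/-- The coefficients of the members at `t` and at `α` are near. -/
lemma coeff_near {p : ℕ} [Fact p.Prime] (σ : K →+* ℂ) (τ : ℂ →+* PadicAlgCl p)
    (q : Polynomial K) (hq : ∀ k, ‖τ (σ (q.coeff k))‖ ≤ 1) (α : K) (hα : ‖τ (σ α)‖ ≤ 1) (t : ℂ)
    (ht : ‖τ (t - σ α)‖ < 1) :
    ‖τ (Polynomial.eval₂ σ t q)‖ ≤ 1 ∧
      ‖τ (Polynomial.eval₂ σ t q) - τ (σ (q.eval α))‖ < 1 := by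
  have h1 : ‖τ t - τ (σ α)‖ < 1 := by rwa [← map_sub]
  have h2 : ‖τ t‖ ≤ 1 := by
    have h3 : τ t = (τ t - τ (σ α)) + τ (σ α) := by ring
    rw [h3]
    exact (IsUltrametricDist.norm_add_le_max _ _).trans (max_le h1.le hα)
  have h4 := eval_near τ (q.map σ) (fun k => by rw [Polynomial.coeff_map]; exact hq k) t (σ α) h2
    hα h1
  rw [Polynomial.eval_map, Polynomial.eval_map, Polynomial.eval₂_at_apply] at h4
  exact h4

/-- **Near good members.** -/
theorem near_full (σ : K →+* ℂ) {d : ℕ}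
    (F : Fin (N + 1) → MvPolynomial (Fin (N + 1)) (Polynomial K))
    (hF : ∀ i, (F i).IsHomogeneous d) (α : K) (hgood : GoodAll (memK F α)) :
    ∃ s : Finset K, ∀ (p : ℕ) [Fact p.Prime] (τ : ℂ →+* PadicAlgCl p),
      (∀ y ∈ s, ‖τ (σ y)‖ ≤ 1) → ∀ t : ℂ, ‖τ (t - σ α)‖ < 1 → RawDML (memC σ F t) := by
  classical
  obtain ⟨s1, hs1⟩ := hgood
  obtain ⟨s2, hs2⟩ := family_coeffs F
  refine ⟨s1 ∪ s2 ∪ {α}, fun p hp τ hτ t ht => ?_⟩
  have hR : ∀ y ∈ s1 ∪ s2 ∪ {α}, y ∈ intRing σ τ := fun y hy => hτ y hy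
  obtain ⟨fR, hfR, hred⟩ := hs1 (intRing σ τ) fun y hy => hR y (by
    simp [Finset.mem_coe.1 hy])
  have hcF := hs2 (intRing σ τ) fun y hy => hR y (by simp [Finset.mem_coe.1 hy])
  have hα : ‖τ (σ α)‖ ≤ 1 := hτ α (by simp)
  have hcoeff : ∀ i κ, (memC σ F t i).coeff κ = Polynomial.eval₂ σ t ((F i).coeff κ) := by
    intro i κ
    rw [memC, coeff_map]
    rfl
  have hcoeffK : ∀ i κ, (memK F α i).coeff κ = ((F i).coeff κ).eval α := by
    intro i κ
    rw [memK, coeff_map]
    rfl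
  have hnear := fun i κ => coeff_near σ τ ((F i).coeff κ) (fun k => hcF i κ k) α hα t ht
  choose G hG using fun i => exists_lift τ (memC σ F t i) (fun κ => by
    rw [hcoeff]
    exact (hnear i κ).1)
  let ρ : intRing σ τ →+* ResF (PadicAlgCl p) := (res (PadicAlgCl p)).comp (toBall σ τ)
  have hGρ : (fun i => map (res (PadicAlgCl p)) (G i)) = fun i => map ρ (fR i) := by
    funext i
    ext κ
    rw [coeff_map, coeff_map]
    change _ = res (PadicAlgCl p) (toBall σ τ ((fR i).coeff κ))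
    rw [← sub_eq_zero, ← map_sub, res_eq_zero_iff]
    have e1 : (((G i).coeff κ : unitBall (PadicAlgCl p)) : PadicAlgCl p) =
        τ ((memC σ F t i).coeff κ) := by
      have := congrArg (coeff κ) (hG i)
      rwa [coeff_map, coeff_map] at this
    have e2 : (((fR i).coeff κ : intRing σ τ) : K) = (memK F α i).coeff κ := by
      have := congrArg (coeff κ) (hfR i)
      rwa [coeff_map] at this
    have e3 : (((G i).coeff κ - toBall σ τ ((fR i).coeff κ) : unitBall (PadicAlgCl p)) :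
        PadicAlgCl p) = (((G i).coeff κ : unitBall (PadicAlgCl p)) : PadicAlgCl p) -
          τ (σ (((fR i).coeff κ : intRing σ τ) : K)) := rfl
    rw [e3, e1, e2, hcoeff, hcoeffK]
    exact (hnear i κ).2
  obtain ⟨hr1, hr2⟩ := hred (ResF (PadicAlgCl p)) ρ
  have hres : ∀ i, map (res (PadicAlgCl p)) (G i) = map ρ (fR i) := fun i => congrFun hGρ i
  obtain ⟨c1, c2⟩ := criterion p N d (memC σ F t) (fun i => (hF i).map _) τ G
    (fun i => (hG i).symm) (fun x hx => by
      refine hr1 x ?_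
      funext i
      have := hx i
      rwa [hres] at this) (fun x hx m hm hper => by
      rw [hGρ] at hper ⊢
      exact hr2 x hx m hm hper)
  exact ⟨c1, c2⟩

lemma norm_eq_one_of_res {p : ℕ} [Fact p.Prime] (x : unitBall (PadicAlgCl p))
    (h : res (PadicAlgCl p) x ≠ 0) : ‖(x : PadicAlgCl p)‖ = 1 := by
  rw [Ne, res_eq_zero_iff, not_lt] at h
  exact le_antisymm (unitBall_norm_le x) h

/-- **Orbits near to good orbits.** -/
theorem near_point (σ : K →+* ℂ)
    (F : Fin (N + 1) → MvPolynomial (Fin (N + 1)) (Polynomial K))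
    (Y : Fin (N + 1) → Polynomial K) (α : K)
    (hgood : GoodAt (memK F α) fun i => (Y i).eval α) :
    ∃ s : Finset K, ∀ (p : ℕ) [Fact p.Prime] (τ : ℂ →+* PadicAlgCl p),
      (∀ y ∈ s, ‖τ (σ y)‖ ≤ 1) → ∀ t : ℂ, ‖τ (t - σ α)‖ < 1 →
        DMLAt (memC σ F t) (fun i => (Y i).eval₂ σ t) := by
  classical
  set P : Fin (N + 1) → K := fun i => (Y i).eval α with hPdef
  obtain ⟨s1, hs1⟩ := hgood
  obtain ⟨s2, hs2⟩ := family_coeffs F
  let s4 : Finset K := Finset.univ.biUnion fun i => (Y i).support.image fun k => (Y i).coeff k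
  let s : Finset K := s1 ∪ s2 ∪ s4 ∪ {α}
  refine ⟨s, fun p hp τ hτ t ht => ?_⟩
  have hR : ∀ y ∈ s, y ∈ intRing σ τ := fun y hy => hτ y hy
  obtain ⟨fR, b, hfR, hb, hred⟩ := hs1 (intRing σ τ) fun y hy => hR y (by
    simp [s, Finset.mem_coe.1 hy])
  have hcF := hs2 (intRing σ τ) fun y hy => hR y (by simp [s, Finset.mem_coe.1 hy])
  have hcY : ∀ i k, (Y i).coeff k ∈ intRing σ τ := by
    intro i k
    by_cases h : (Y i).coeff k = 0
    · rw [h]
      exact Subring.zero_mem _
    · apply hR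
      have h1 : (Y i).coeff k ∈ s4 := by
        simp only [s4, Finset.mem_biUnion, Finset.mem_image]
        exact ⟨i, Finset.mem_univ _, k, Polynomial.mem_support_iff.2 h, rfl⟩
      simp only [s, Finset.mem_union]
      tauto
  have hα : ‖τ (σ α)‖ ≤ 1 := hτ α (by simp [s])
  have hcoeff : ∀ i κ, (memC σ F t i).coeff κ = Polynomial.eval₂ σ t ((F i).coeff κ) := by
    intro i κ
    rw [memC, coeff_map]
    rfl
  have hcoeffK : ∀ i κ, (memK F α i).coeff κ = ((F i).coeff κ).eval α := by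
    intro i κ
    rw [memK, coeff_map]
    rfl
  have hnear := fun i κ => coeff_near σ τ ((F i).coeff κ) (fun k => hcF i κ k) α hα t ht
  have hnearY := fun i => coeff_near σ τ (Y i) (fun k => hcY i k) α hα t ht
  have hPint : ∀ i, ‖τ (σ (P i))‖ ≤ 1 := by
    intro i
    rw [← hb i]
    exact (mem_intRing σ τ _).1 (b i).2
  -- the point and the map over the valuation ring
  let φ : intRing σ τ →+* ℂ := σ.comp (intRing σ τ).subtype
  let ρ : intRing σ τ →+* ResF (PadicAlgCl p) := (res (PadicAlgCl p)).comp (toBall σ τ)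
  let g : Fin (N + 1) → MvPolynomial (Fin (N + 1)) ℂ := fun i => map σ (memK F α i)
  have hgφ : (fun i => map φ (fR i)) = g := by
    funext i
    change map φ (fR i) = map σ (memK F α i)
    rw [← hfR i, map_map]
  have hbφ : (fun i => φ (b i)) = fun i => σ (P i) := by
    funext i
    change σ ((b i : intRing σ τ) : K) = _
    rw [hb i]
  have horbφ : ∀ n, (pt g)^[n] (fun i => σ (P i)) = fun i => φ ((pt fR)^[n] b i) := by
    intro n
    have := pt_map φ fR b n
    rw [hgφ, hbφ] at this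
    exact this
  have horbρ : ∀ n, (pt fun i => map ρ (fR i))^[n] (fun i => ρ (b i)) =
      fun i => ρ ((pt fR)^[n] b i) := fun n => pt_map ρ fR b n
  have hval : ∀ x : intRing σ τ, ρ x ≠ 0 → ‖τ (φ x)‖ = 1 := by
    intro x hx
    exact norm_eq_one_of_res (toBall σ τ x) hx
  have hz := hred (ResF (PadicAlgCl p)) ρ
  -- periodicity
  obtain ⟨M, q, hq, hper⟩ := res_orbit_periodic p (fun i => map (toBall σ τ) (fR i))
    (fun i => toBall σ τ (b i))
  have hper' : ∀ n, M ≤ n → (pt fun i => map ρ (fR i))^[q]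
      ((pt fun i => map ρ (fR i))^[n] (fun i => ρ (b i))) =
        (pt fun i => map ρ (fR i))^[n] (fun i => ρ (b i)) := by
    intro n hn
    have h1 := hper n hn
    have e1 := pt_map (toBall σ τ) fR b n
    have e2 : (fun i => map (res (PadicAlgCl p)) (map (toBall σ τ) (fR i))) =
        fun i => map ρ (fR i) := by
      funext i
      rw [map_map]
    have e3 : (fun i => res (PadicAlgCl p) ((pt fun i => map (toBall σ τ) (fR i))^[n]
        (fun i => toBall σ τ (b i)) i)) =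
          (pt fun i => map ρ (fR i))^[n] (fun i => ρ (b i)) := by
      rw [e1, horbρ n]
      rfl
    rw [e3, e2] at h1
    exact h1
  refine orbit_core τ (memC σ F t) g (fun i => (Y i).eval₂ σ t) (fun i => σ (P i))
    (fun i κ => ?_) (fun i κ => ?_) (fun i κ => ?_) (fun i => (hnearY i).1)
    hPint (fun i => (hnearY i).2) M (fun n hn => ?_) (fun n => ?_)
  · rw [hcoeff]
    exact (hnear i κ).1
  · change ‖τ (coeff κ (map σ (memK F α i)))‖ ≤ 1
    rw [coeff_map, ← hfR i, coeff_map]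
    exact (mem_intRing σ τ _).1 ((fR i).coeff κ).2
  · change ‖τ ((memC σ F t i).coeff κ) - τ (coeff κ (map σ (memK F α i)))‖ < 1
    rw [coeff_map, hcoeff, hcoeffK]
    exact (hnear i κ).2
  · rw [horbφ n]
    have e1 := jac_map φ fR ((pt fR)^[n] b)
    rw [hgφ] at e1
    rw [e1, ← RingHom.map_det]
    apply hval
    have e2 := jac_map ρ fR ((pt fR)^[n] b)
    rw [RingHom.map_det, ← e2, ← horbρ n]
    exact (hz n).2 q hq (hper' n hn)
  · rw [horbφ n]
    obtain ⟨i, hi⟩ := Function.ne_iff.1 (hz n).1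
    refine ⟨i, hval _ ?_⟩
    rw [horbρ n] at hi
    exact hi

end Pool.Agent.K6.H53.DM
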