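import Pool.Agent.K6.H53.DM.Cert

set_option autoImplicit false

/-! The reduction of a strictly critically finite map at a place at which finitely many numbers are
integral. -/

namespace Pool.Agent.K6.H53.DM

open MvPolynomial Pool.Agent.H936R2

variable {K : Type} [Field K] {ι : Type} [Fintype ι] [DecidableEq ι]

/-- A chain of closed sets as in the definition of strict critical finiteness (on the cone). -/
structure Chain (f : ι → MvPolynomial ι K) (k : ℕ) (D : ℕ → Set (MvPolynomial ι K)) : Prop where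
  zero : ∀ z : ι → K, ∀ g ∈ D 0, eval z g = 0
  inv : ∀ i, i ≤ k → ∀ z : ι → K, (∀ g ∈ D i, eval z g = 0) → ∀ g ∈ D i, eval (pt f z) g = 0
  crit : ∀ i < k, ∃ m : ℕ, ∀ z : ι → K, (∀ g ∈ D i, eval z g = 0) → (jac f z).det = 0 →
    ∀ g ∈ D (i + 1), eval ((pt f)^[m] z) g = 0

/-- The reduction: periodic critical points are in the totally invariant set given by `E`. -/
theorem reduction [IsAlgClosed K] (f : ι → MvPolynomial ι K) (k : ℕ)
    (D : ℕ → Set (MvPolynomial ι K))
    (hD : Chain f k D) (E : Finset (MvPolynomial ι K))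
    (hE : ∀ z : ι → K, (∀ g ∈ D k, eval z g = 0) → ∀ g ∈ E, eval z g = 0)
    (htot : ∀ z : ι → K, (∀ g ∈ E, eval (pt f z) g = 0) → ∀ g ∈ E, eval z g = 0) :
    ∃ s : Finset K, ∀ (R : Subring K), (s : Set K) ⊆ R → ∃ fR : ι → MvPolynomial ι R,
      (∀ i, map R.subtype (fR i) = f i) ∧ (∀ g ∈ E, Int R g) ∧
      ∀ (k' : Type) [Field k'] (ρ : R →+* k'),
        (∀ x : ι → k', ∀ m : ℕ, 0 < m → (pt fun i => map ρ (fR i))^[m] x = x →
          (jac (fun i => map ρ (fR i)) x).det = 0 → ∀ g ∈ E, ev ρ x g = 0) ∧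
        ∀ x : ι → k', (∀ g ∈ E, ev ρ (pt (fun i => map ρ (fR i)) x) g = 0) →
          ∀ g ∈ E, ev ρ x g = 0 := by
  classical
  obtain ⟨h0, hinv, hcrit⟩ := hD
  -- finite systems of equations
  have hA1 : ∀ i, ∃ B' : Finset (MvPolynomial ι K), (B' : Set (MvPolynomial ι K)) ⊆ D i ∧
      ∀ z : ι → K, (∃ g ∈ D i, eval z g ≠ 0) → ∃ g ∈ B', eval z g ≠ 0 := fun i => finite_sub (D i)
  choose A hAD hA using hA1
  have hAz : ∀ i (z : ι → K), (∀ g ∈ A i, eval z g = 0) ↔ (∀ g ∈ D i, eval z g = 0) := by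
    intro i z
    constructor
    · intro h g hg
      by_contra hne
      obtain ⟨g', hg', hne'⟩ := hA i z ⟨g, hg, hne⟩
      exact hne' (h g' hg')
    · exact fun h g hg => h g (hAD i hg)
  choose! m hm using hcrit
  -- certificates
  obtain ⟨s0, hs0⟩ := cert_finset (ι := ι) ∅ (A 0) (fun z _ g hg => h0 z g (hAD 0 hg))
  have hinv' : ∀ i, i ≤ k → ∃ s : Finset K, ∀ (R : Subring K), (s : Set K) ⊆ R →
      (∀ P ∈ A i, Int R P) → (∀ g ∈ (A i).image (pull f 1), Int R g) →
      ∀ (k : Type) [Field k] (ρ : R →+* k) (z : ι → k),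
        (∀ P ∈ A i, ev ρ z P = 0) → ∀ g ∈ (A i).image (pull f 1), ev ρ z g = 0 := by
    intro i hik
    apply cert_finset
    intro z hz g hg
    obtain ⟨g', hg', rfl⟩ := Finset.mem_image.1 hg
    rw [eval_pull]
    exact hinv i hik z ((hAz i z).1 hz) g' (hAD i hg')
  choose! s1 hs1 using hinv'
  have hcrit' : ∀ i, i < k → ∃ s : Finset K, ∀ (R : Subring K), (s : Set K) ⊆ R →
      (∀ P ∈ insert (jdet f) (A i), Int R P) → (∀ g ∈ (A (i + 1)).image (pull f (m i)), Int R g) →
      ∀ (k : Type) [Field k] (ρ : R →+* k) (z : ι → k),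
        (∀ P ∈ insert (jdet f) (A i), ev ρ z P = 0) →
        ∀ g ∈ (A (i + 1)).image (pull f (m i)), ev ρ z g = 0 := by
    intro i hik
    apply cert_finset
    intro z hz g hg
    obtain ⟨g', hg', rfl⟩ := Finset.mem_image.1 hg
    rw [eval_pull]
    refine hm i hik z ((hAz i z).1 fun P hP => hz P (Finset.mem_insert_of_mem hP)) ?_ g'
      (hAD _ hg')
    rw [← eval_jdet]
    exact hz _ (Finset.mem_insert_self _ _)
  choose! s2 hs2 using hcrit'
  obtain ⟨s3, hs3⟩ := cert_finset (ι := ι) (E.image (pull f 1)) E (by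
    intro z hz g hg
    refine htot z (fun g' hg' => ?_) g hg
    have := hz _ (Finset.mem_image_of_mem _ hg')
    rwa [eval_pull] at this)
  obtain ⟨s4, hs4⟩ := cert_finset (ι := ι) (A k) E (by
    intro z hz g hg
    exact hE z ((hAz k z).1 hz) g hg)
  -- the coefficients
  obtain ⟨c1, hc1⟩ := coeffs_finset (Finset.univ.image f)
  obtain ⟨c2, hc2⟩ := coeffs_finset ((Finset.range (k + 1)).biUnion A)
  obtain ⟨c3, hc3⟩ := coeffs_finset E
  let s : Finset K := s0 ∪ (Finset.range (k + 1)).biUnion s1 ∪ (Finset.range (k + 1)).biUnion s2 ∪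
    s3 ∪ s4 ∪ c1 ∪ c2 ∪ c3
  refine ⟨s, fun R hsR => ?_⟩
  have hR : ∀ x ∈ s, x ∈ R := fun x hx => hsR hx
  have hs0R : (s0 : Set K) ⊆ R := fun x hx => hR x (by simp [s, Finset.mem_coe.1 hx])
  have hs3R : (s3 : Set K) ⊆ R := fun x hx => hR x (by simp [s, Finset.mem_coe.1 hx])
  have hs4R : (s4 : Set K) ⊆ R := fun x hx => hR x (by simp [s, Finset.mem_coe.1 hx])
  have hc1R : (c1 : Set K) ⊆ R := fun x hx => hR x (by simp [s, Finset.mem_coe.1 hx])
  have hc2R : (c2 : Set K) ⊆ R := fun x hx => hR x (by simp [s, Finset.mem_coe.1 hx])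
  have hc3R : (c3 : Set K) ⊆ R := fun x hx => hR x (by simp [s, Finset.mem_coe.1 hx])
  have hs1R : ∀ i, i ≤ k → (s1 i : Set K) ⊆ R := by
    intro i hi x hx
    apply hR x
    have : x ∈ (Finset.range (k + 1)).biUnion s1 :=
      Finset.mem_biUnion.2 ⟨i, Finset.mem_range.2 (by omega), hx⟩
    simp only [s, Finset.mem_union]
    tauto
  have hs2R : ∀ i, i ≤ k → (s2 i : Set K) ⊆ R := by
    intro i hi x hx
    apply hR x
    have : x ∈ (Finset.range (k + 1)).biUnion s2 :=
      Finset.mem_biUnion.2 ⟨i, Finset.mem_range.2 (by omega), hx⟩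
    simp only [s, Finset.mem_union]
    tauto
  have hfInt : ∀ i, Int R (f i) :=
    fun i => hc1 R hc1R _ (Finset.mem_image_of_mem _ (Finset.mem_univ _))
  have hAInt : ∀ i, i ≤ k → ∀ g ∈ A i, Int R g := fun i hi g hg =>
    hc2 R hc2R _ (Finset.mem_biUnion.2 ⟨i, Finset.mem_range.2 (by omega), hg⟩)
  have hEInt : ∀ g ∈ E, Int R g := fun g hg => hc3 R hc3R g hg
  choose fR hfR using hfInt
  refine ⟨fR, hfR, hEInt, fun k' _ ρ => ⟨fun x q hq hper hjac g hg => ?_, fun x hx g hg => ?_⟩⟩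
  · -- the orbit
    let zb : ℕ → ι → k' := fun n => (pt fun i => map ρ (fR i))^[n] x
    have hzb : ∀ n l, (pt fun i => map ρ (fR i))^[l] (zb n) = zb (n + l) := by
      intro n l
      change (pt fun i => map ρ (fR i))^[l] ((pt fun i => map ρ (fR i))^[n] x) = _
      rw [← Function.iterate_add_apply, Nat.add_comm l n]
    have hper' : ∀ n, zb (n + q) = zb n := by
      intro n
      change (pt fun i => map ρ (fR i))^[n + q] x = _
      rw [Function.iterate_add_apply, hper]
    have hper2 : ∀ n t, zb (n + t * q) = zb n := by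
      intro n t
      induction t with
      | zero => simp
      | succ t ih =>
        rw [Nat.succ_mul, ← Nat.add_assoc, hper', ih]
    have hst1 : ∀ i, i ≤ k → ∀ n, (∀ g ∈ A i, ev ρ (zb n) g = 0) →
        ∀ g ∈ A i, ev ρ (zb (n + 1)) g = 0 := by
      intro i hik n hn g hg
      have h1 := hs1 i hik R (hs1R i hik) (hAInt i hik) (by
        intro g' hg'
        obtain ⟨g'', hg'', rfl⟩ := Finset.mem_image.1 hg'
        exact int_pull fR f hfR 1 g'' (hAInt i hik g'' hg'')) _ ρ (zb n) hn _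
          (Finset.mem_image_of_mem _ hg)
      rw [ev_pull ρ fR f hfR 1 g (hAInt i hik g hg), hzb] at h1
      exact h1
    have hst1' : ∀ i, i ≤ k → ∀ n, (∀ g ∈ A i, ev ρ (zb n) g = 0) →
        ∀ l, ∀ g ∈ A i, ev ρ (zb (n + l)) g = 0 := by
      intro i hik n hn l
      induction l with
      | zero => exact hn
      | succ l ih => exact hst1 i hik _ ih
    have hst2 : ∀ i, i < k → ∀ n, (∀ g ∈ A i, ev ρ (zb n) g = 0) → ev ρ (zb n) (jdet f) = 0 →
        ∀ g ∈ A (i + 1), ev ρ (zb (n + m i)) g = 0 := by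
      intro i hik n hn hj g hg
      have h1 := hs2 i hik R (hs2R i hik.le) (by
        intro P hP
        rcases Finset.mem_insert.1 hP with rfl | hP
        · exact int_jdet fR f hfR
        · exact hAInt i hik.le P hP) (by
        intro g' hg'
        obtain ⟨g'', hg'', rfl⟩ := Finset.mem_image.1 hg'
        exact int_pull fR f hfR _ g'' (hAInt (i + 1) hik g'' hg'')) _ ρ (zb n) (by
        intro P hP
        rcases Finset.mem_insert.1 hP with rfl | hP
        · exact hj
        · exact hn P hP) _ (Finset.mem_image_of_mem _ hg)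
      rw [ev_pull ρ fR f hfR _ g (hAInt (i + 1) hik g hg), hzb] at h1
      exact h1
    have hJ : ev ρ (zb 0) (jdet f) = 0 := by
      rw [ev_jdet ρ fR f hfR]
      exact hjac
    have hall : ∀ i, i ≤ k → ∀ n, ∀ g ∈ A i, ev ρ (zb n) g = 0 := by
      intro i
      induction i with
      | zero =>
        intro _ n g hg
        exact hs0 R hs0R (by simp) (hAInt 0 (Nat.zero_le _)) _ ρ (zb n) (by simp) g hg
      | succ i ih =>
        intro hik n g hg
        have h1 := hst2 i (by omega) 0 (ih (by omega) 0) hJ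
        have h2 := hst1' (i + 1) hik _ h1
        have h3 : 0 + m i ≤ n + (m i) * q := by
          have : m i ≤ (m i) * q := Nat.le_mul_of_pos_right _ hq
          omega
        obtain ⟨l, hl⟩ := Nat.exists_eq_add_of_le h3
        rw [← hper2 n (m i), hl]
        exact h2 l g hg
    exact hs4 R hs4R (hAInt k le_rfl) hEInt _ ρ x (hall k le_rfl 0) g hg
  · refine hs3 R hs3R (by
      intro g' hg'
      obtain ⟨g'', hg'', rfl⟩ := Finset.mem_image.1 hg'
      exact int_pull fR f hfR 1 g'' (hEInt g'' hg'')) hEInt _ ρ x ?_ g hg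
    intro P hP
    obtain ⟨g'', hg'', rfl⟩ := Finset.mem_image.1 hP
    rw [ev_pull ρ fR f hfR 1 g'' (hEInt g'' hg''), Function.iterate_one]
    exact hx g'' hg''

end Pool.Agent.K6.H53.DM
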